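import Mathlib

set_option autoImplicit false

namespace Q155.AGL

open Finset

theorem exists_ball {α : Type*} [DecidableEq α] (R : Finset α) (s : ℕ) (hs : s ≤ R.card) :
    ∃ B : Finset (Finset α), (∀ J ∈ B, J ⊆ R ∧ J.card = s) ∧
      (∀ J ∈ B, ∀ J' ∈ B, (J \ J').card ≤ 2) ∧ B.card = 1 + s * (R.card - s) := by
  obtain ⟨J₀, hJR, hJc⟩ := Finset.exists_subset_card_eq hs
  set f : α × α → Finset α := fun p => insert p.2 (J₀.erase p.1) with hf
  have key : ∀ J ∈ insert J₀ ((J₀ ×ˢ (R \ J₀)).image f), ∃ X Y : Finset α, X.card ≤ 1 ∧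
      Y.card ≤ 1 ∧ J ⊆ J₀ ∪ Y ∧ J₀ ⊆ J ∪ X := by
    intro J hJ
    rw [mem_insert, mem_image] at hJ
    rcases hJ with rfl | ⟨p, hp, rfl⟩
    · exact ⟨∅, ∅, by simp, by simp, by simp, by simp⟩
    · refine ⟨{p.1}, {p.2}, by simp, by simp, ?_, ?_⟩
      · intro z hz
        simp only [hf, mem_insert, mem_erase] at hz
        simp only [mem_union, mem_singleton]
        tauto
      · intro z hz
        simp only [hf, mem_union, mem_insert, mem_erase, mem_singleton]
        tauto
  refine ⟨insert J₀ ((J₀ ×ˢ (R \ J₀)).image f), ?_, ?_, ?_⟩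
  · intro J hJ
    rw [mem_insert, mem_image] at hJ
    rcases hJ with rfl | ⟨p, hp, rfl⟩
    · exact ⟨hJR, hJc⟩
    · rw [mem_product, mem_sdiff] at hp
      refine ⟨?_, ?_⟩
      · intro z hz
        simp only [hf, mem_insert, mem_erase] at hz
        rcases hz with rfl | hz
        · exact hp.2.1
        · exact hJR hz.2
      · simp only [hf]
        rw [card_insert_of_notMem (by
          rw [mem_erase]
          exact fun h => hp.2.2 h.2), card_erase_of_mem hp.1, hJc]
        have : 0 < J₀.card := card_pos.2 ⟨_, hp.1⟩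
        omega
  · intro J hJ J' hJ'
    obtain ⟨X, Y, hX, hY, h1, h2⟩ := key J hJ
    obtain ⟨X', Y', hX', hY', h1', h2'⟩ := key J' hJ'
    have hsub : J \ J' ⊆ X' ∪ Y := by
      intro z hz
      rw [mem_sdiff] at hz
      have h3 := h1 hz.1
      rw [mem_union] at h3
      rcases h3 with h3 | h3
      · have h4 := h2' h3
        rw [mem_union] at h4
        rcases h4 with h4 | h4
        · exact absurd h4 hz.2
        · exact mem_union_left _ h4
      · exact mem_union_right _ h3
    have h3 := card_le_card hsub
    have h4 := card_union_le X' Y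
    omega
  · rw [card_insert_of_notMem, card_image_of_injOn, card_product, card_sdiff_of_subset hJR, hJc]
    · ring
    · intro p hp q hq hpq
      simp only [coe_product, Set.mem_prod, mem_coe, mem_sdiff] at hp hq
      simp only [hf] at hpq
      have h1 : p.2 ∈ insert q.2 (J₀.erase q.1) := by
        rw [← hpq]
        exact mem_insert_self _ _
      have h2 : p.1 ∉ insert q.2 (J₀.erase q.1) := by
        rw [← hpq, mem_insert, mem_erase]
        rintro (h | h)
        · exact hp.2.2 (h ▸ hp.1)
        · exact h.1 rfl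
      rw [mem_insert, mem_erase] at h1
      rw [mem_insert, mem_erase, not_or, not_and] at h2
      have e2 : p.2 = q.2 := by
        rcases h1 with h1 | h1
        · exact h1
        · exact absurd h1.2 hp.2.2
      have e1 : p.1 = q.1 := by
        by_contra hne
        exact h2.2 hne hp.1
      exact Prod.ext e1 e2
    · rw [mem_image]
      rintro ⟨p, hp, hpe⟩
      rw [mem_product, mem_sdiff] at hp
      apply hp.2.2
      rw [← hpe]
      exact mem_insert_self _ _

end Q155.AGL
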