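import Pool.Agent.Q155.AGL.Many

set_option autoImplicit false

namespace Q155.AGL

open Finset

theorem arith_one (j d m c : ℕ) (hj : 2 ≤ j) (hm : 2 * j ≤ m) (hc : c ≤ if j ≤ d then 1 else m)
    (hbad : ¬ j ≤ d → 4 ≤ j ∨ (j = 3 ∧ 9 ≤ m)) :
    c + (j - 1) / 2 < 1 + (j - 1) * (m - 2 - (j - 1)) := by
  obtain ⟨n, rfl⟩ : ∃ n, m = 2 * j + n := ⟨m - 2 * j, by omega⟩
  obtain ⟨i, rfl⟩ : ∃ i, j = i + 2 := ⟨j - 2, by omega⟩
  have e1 : 2 * (i + 2) + n - 2 - (i + 2 - 1) = i + n + 1 := by omega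
  have e2 : i + 2 - 1 = i + 1 := by omega
  rw [e1, e2]
  have h3 : (i + 1) / 2 ≤ (i + 1) / 2 := le_rfl
  have h4 : 2 * ((i + 1) / 2) ≤ i + 1 := Nat.mul_div_le _ _
  split_ifs at hc with h
  · nlinarith
  · rcases hbad h with h5 | ⟨h5, h6⟩
    · have : 2 ≤ i := by omega
      nlinarith
    · have : i = 1 := by omega
      subst this
      omega

theorem arith_two (j m : ℕ) (hj : 1 ≤ j) (hm : 2 * j ≤ m) :
    (j - 1) / 2 < 1 + (j - 1) * (m - 2 - (j - 1)) := by
  obtain ⟨n, rfl⟩ : ∃ n, m = 2 * j + n := ⟨m - 2 * j, by omega⟩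
  obtain ⟨i, rfl⟩ : ∃ i, j = i + 1 := ⟨j - 1, by omega⟩
  have e1 : 2 * (i + 1) + n - 2 - (i + 1 - 1) = i + n := by omega
  have e2 : i + 1 - 1 = i := by omega
  rw [e1, e2]
  have h4 : 2 * (i / 2) ≤ i := Nat.mul_div_le _ _
  rcases Nat.eq_zero_or_pos i with rfl | h5
  · simp
  · have h6 : i * 1 ≤ i * (i + n) := Nat.mul_le_mul_left _ (by omega)
    omega

theorem arith_three (p n m : ℕ) (hp : p.Prime) (hp2 : p ≠ 2) (hN : 2 * m + 1 = p ^ n) (hm : 6 ≤ m)
    (ht : p ∣ 6 ∨ p ∣ 7) : 9 ≤ m := by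
  by_contra hcon
  push Not at hcon
  have hpc : p = 3 ∨ p = 7 := by
    rcases ht with h | h
    · left
      have h1 : p ∣ 2 * 3 := h
      rw [hp.dvd_mul] at h1
      rcases h1 with h1 | h1
      · exact absurd ((Nat.prime_dvd_prime_iff_eq hp Nat.prime_two).1 h1) hp2
      · exact (Nat.prime_dvd_prime_iff_eq hp Nat.prime_three).1 h1
    · right
      exact (Nat.prime_dvd_prime_iff_eq hp (by norm_num)).1 h
  have hn : n ≤ 2 ∨ 3 ≤ n := by omega
  rcases hpc with rfl | rfl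
  · rcases hn with hn | hn
    · interval_cases n <;> omega
    · have := Nat.pow_le_pow_right (show 0 < 3 by norm_num) hn
      omega
  · have hn : n ≤ 1 ∨ 2 ≤ n := by omega
    rcases hn with hn | hn
    · interval_cases n <;> omega
    · have := Nat.pow_le_pow_right (show 0 < 7 by norm_num) hn
      omega

variable {K V : Type*} [Field K] [Finite K] [AddCommGroup V] [Module K V] [Fintype V]

theorem exists_good_many (p : ℕ) [hp : Fact p.Prime] [CharP K p] (d j ε : ℕ) (hd2 : 2 ≤ d)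
    (hdK : d ∣ Nat.card K - 1) (hj : 1 ≤ j) (hε : ε ≤ 1)
    (hN : 2 * (d * j + ε) ≤ Fintype.card V)
    (hpow : ¬ (j = 1 ∧ ε = 1 ∧ ∃ β, d + 1 = p ^ β)) :
    ∃ T : Finset V, T.card = d * j + ε ∧ Good K d T := by
  classical
  have hd : 0 < d := by omega
  obtain ⟨ζ, hζ⟩ := exists_prim K d hdK
  have hpV : ∀ v : V, p • v = 0 := by
    intro v
    rw [← Nat.cast_smul_eq_nsmul K, CharP.cast_eq_zero, zero_smul]
  set Ω : Finset (Finset V) := Om K V d with hΩ
  have hΩc : Ω.card * d + 1 = Fintype.card V := card_Om hd hζ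
  set m := Ω.card with hm
  have hmj : 2 * j ≤ m := by
    by_contra hcon
    push Not at hcon
    have h1 : m + 1 ≤ 2 * j := hcon
    have h2 : (m + 1) * d ≤ 2 * j * d := Nat.mul_le_mul_right _ h1
    nlinarith
  -- the two special orbits
  obtain ⟨x₁, hx₁⟩ : ∃ x : V, x ≠ 0 := by
    have h1 : Ω.Nonempty := card_pos.1 (by omega)
    obtain ⟨O, hO⟩ := h1
    obtain ⟨x, hx, -⟩ := mem_Om.1 hO
    exact ⟨x, hx⟩
  set O₁ : Finset V := orb K d x₁ with hO₁
  have hO₁Ω : O₁ ∈ Ω := mem_Om.2 ⟨x₁, hx₁, rfl⟩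
  obtain ⟨O₂, hO₂Ω, hO₂ne, hO₂⟩ : ∃ O₂ ∈ Ω, O₂ ≠ O₁ ∧
      ((∃ b : K, b ^ (2 * d) = 1 ∧ b ^ d ≠ 1) → ∃ b : K, b ^ (2 * d) = 1 ∧ b • x₁ ∈ O₂) := by
    by_cases hb : ∃ b : K, b ^ (2 * d) = 1 ∧ b ^ d ≠ 1
    · obtain ⟨b, hb1, hb2⟩ := hb
      have hb0 : b ≠ 0 := ne_zero_of_root (by omega) hb1
      refine ⟨orb K d (b • x₁), mem_Om.2 ⟨_, smul_ne_zero hb0 hx₁, rfl⟩, ?_,
        fun _ => ⟨b, hb1, self_mem_orb hd _⟩⟩
      intro h
      have h1 : b • x₁ ∈ orb K d x₁ := by
        rw [← hO₁, ← h]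
        exact self_mem_orb hd _
      obtain ⟨a, ha, hab⟩ := (mem_orb hd).1 h1
      have := smul_injective hx₁ hab
      rw [this] at ha
      exact hb2 ha
    · obtain ⟨O₂, hO₂⟩ : (Ω.erase O₁).Nonempty := card_pos.1 (by
        rw [card_erase_of_mem hO₁Ω]
        omega)
      rw [mem_erase] at hO₂
      exact ⟨O₂, hO₂.2, hO₂.1, fun h => absurd h hb⟩
  set R : Finset (Finset V) := (Ω.erase O₁).erase O₂ with hR
  have hRc : R.card = m - 2 := by
    rw [hR, card_erase_of_mem (mem_erase.2 ⟨hO₂ne, hO₂Ω⟩), card_erase_of_mem hO₁Ω]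
    omega
  obtain ⟨B, hB1, hB2, hB3⟩ := exists_ball R (j - 1) (by rw [hRc]; omega)
  rw [hRc] at hB3
  -- the sets attached to the members of the ball
  set F : Finset (Finset V) → Finset (Finset V) := fun J => insert O₁ J with hF
  have hFΩ : ∀ J ∈ B, F J ⊆ Ω := by
    intro J hJ O hO
    rw [hF, mem_insert] at hO
    rcases hO with rfl | hO
    · exact hO₁Ω
    · exact mem_of_mem_erase (mem_of_mem_erase ((hB1 J hJ).1 hO))
  have hO₁J : ∀ J ∈ B, O₁ ∉ J := by
    intro J hJ h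
    have := (hB1 J hJ).1 h
    rw [hR, mem_erase, mem_erase] at this
    exact this.2.1 rfl
  have hO₂J : ∀ J ∈ B, O₂ ∉ F J := by
    intro J hJ h
    rw [hF, mem_insert] at h
    rcases h with h | h
    · exact hO₂ne h
    · have := (hB1 J hJ).1 h
      rw [hR, mem_erase] at this
      exact this.1 rfl
  have hFc : ∀ J ∈ B, (F J).card = j := by
    intro J hJ
    rw [hF, card_insert_of_notMem (hO₁J J hJ), (hB1 J hJ).2]
    omega
  set T : Finset (Finset V) → Finset V := fun J => Tset ε (F J) with hT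
  have hTc : ∀ J ∈ B, (T J).card = d * j + ε := by
    intro J hJ
    rw [hT, card_Tset hd hζ hε (hFΩ J hJ), hFc J hJ]
  have hTst : ∀ J ∈ B, St K d (T J) := fun J hJ => st_Tset hd (hFΩ J hJ)
  have hT0 : ∀ J ∈ B, ((0 : V) ∈ T J ↔ ε = 1) := fun J hJ => zero_mem_Tset hd (hFΩ J hJ)
  have hTx : ∀ J ∈ B, x₁ ∈ T J := by
    intro J _
    rw [hT, mem_Tset]
    right
    exact ⟨O₁, mem_insert_self _ _, self_mem_orb hd x₁⟩
  have hTO₂ : ∀ J ∈ B, ∀ y ∈ O₂, y ∉ T J := by
    intro J hJ y hy h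
    rw [hT, mem_Tset] at h
    rcases h with ⟨-, h⟩ | ⟨O, hO, h⟩
    · exact ne_zero_of_mem_Om hd hO₂Ω hy h
    · apply hO₂J J hJ
      rw [← orb_eq_of_mem_Om hd hO₂Ω hy, orb_eq_of_mem_Om hd (hFΩ J hJ hO) h]
      exact hO
  have hcard0 : ∀ J ∈ B, ∀ D : Finset V, (∀ x ∈ D, x ∈ T J ∧ x ≠ 0) → D.card ≤ d * j := by
    intro J hJ D hD
    have hsub : D ⊆ (F J).biUnion id := by
      intro x hx
      have := (hD x hx).1
      rw [hT, mem_Tset] at this
      rcases this with h | ⟨O, hO, h⟩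
      · exact absurd h.2 (hD x hx).2
      · rw [mem_biUnion]
        exact ⟨O, hO, h⟩
    have h1 := card_le_card hsub
    rw [card_biUnion_Om hd hζ (hFΩ J hJ), hFc J hJ] at h1
    linarith
  have hdiff : ∀ J ∈ B, ∀ J' ∈ B, (T J \ T J').card ≤ 2 * d := by
    intro J hJ J' hJ'
    apply Tset_sdiff_card hd hζ (hFΩ J hJ)
    refine le_trans (card_le_card ?_) (hB2 J hJ J' hJ')
    intro O hO
    rw [hF, mem_sdiff, mem_insert, mem_insert, not_or] at hO
    rw [mem_sdiff]
    rcases hO.1 with h | h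
    · exact absurd h hO.2.1
    · exact ⟨h, hO.2.2⟩
  have hdiff0 : ∀ J ∈ B, ∀ J' ∈ B, (0 : V) ∉ T J \ T J' := by
    intro J hJ J' hJ' h
    rw [mem_sdiff, hT0 J hJ, hT0 J' hJ'] at h
    exact h.2 h.1
  by_contra hcon
  push Not at hcon
  have hbad : ∀ J ∈ B, ∃ a : K, a ≠ 0 ∧ ∃ b : V, Inv a b (T J) ∧ ¬ (a ^ d = 1 ∧ b = 0) :=
    fun J hJ => exists_of_not_good (hTst J hJ) (hcon (T J) (hTc J hJ))
  -- the classes
  set Bad : Finset V ⊕ ℕ → Finset (Finset V) → Prop := fun i J =>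
    Sum.elim (fun O => ∃ v ∈ O, v ∈ Per (T J))
      (fun i => 1 ≤ i ∧ 2 * i + 1 ≤ j ∧
        (∀ a : K, a ^ (d * (2 * i + 1)) = 1 → ∀ x ∈ T J, a • x ∈ T J) ∧
        d * (2 * i + 1) ≤ (Polynomial.nthRootsFinset (d * (2 * i + 1)) (1 : K)).card) i with hBad
  have huniq : ∀ i : Finset V ⊕ ℕ, (∀ O, i = Sum.inl O → O ∈ Ω) → ∀ J ∈ B, ∀ J' ∈ B, Bad i J →
      Bad i J' → T J \ T J' = ∅ := by
    intro i hi J hJ J' hJ' h h'
    rcases i with O | i
    · obtain ⟨v, hvO, hv⟩ := h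
      obtain ⟨v', hvO', hv'⟩ := h'
      have hOΩ := hi O rfl
      have h1 : v' ∈ orb K d v := by
        rw [orb_eq_of_mem_Om hd hOΩ hvO]
        exact hvO'
      obtain ⟨a, ha, rfl⟩ := (mem_orb hd).1 h1
      exact diff_empty hd2 hζ (hTst J hJ) (hTst J' hJ') (ne_zero_of_mem_Om hd hOΩ hvO')
        (smul_mem_Per hd (hTst J hJ) ha hv) hv' (hdiff0 J hJ J' hJ') (hdiff J hJ J' hJ')
    · obtain ⟨h1, h2, h3, h4⟩ := h
      obtain ⟨-, -, h3', -⟩ := h'
      exact diff_empty_hom (n := d * (2 * i + 1)) (by nlinarith) h4 h3 h3' (hdiff0 J hJ J' hJ')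
        (hdiff J hJ J' hJ')
  have hfinal : ∀ I : Finset (Finset V), I ⊆ Ω →
      (∀ J ∈ B, (∃ v ∈ Per (T J), v ≠ 0) → ∃ O ∈ I, ∃ v ∈ O, v ∈ Per (T J)) →
      I.card + (j - 1) / 2 < B.card → False := by
    intro I hIΩ hI hlt
    have hall : ∀ J ∈ B, ∃ i ∈ I.disjSum (Finset.Icc 1 ((j - 1) / 2)), Bad i J := by
      intro J hJ
      by_cases hper : ∃ v ∈ Per (T J), v ≠ 0
      · obtain ⟨O, hO, v, hv, hv'⟩ := hI J hJ hper
        exact ⟨Sum.inl O, Finset.inl_mem_disjSum.2 hO, v, hv, hv'⟩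
      · push Not at hper
        obtain ⟨a, ha, b, hab, hne⟩ := hbad J hJ
        have hb := b_eq_zero hd2 hζ (hTst J hJ) hper ha hab
        subst hb
        have had : a ^ d ≠ 1 := fun h => hne ⟨h, rfl⟩
        obtain ⟨i, hi1, hi2, hi3, hi4⟩ := hom_index hd2 hζ (hTst J hJ) (hTx J hJ) hx₁
          (hcard0 J hJ) (by
            intro h
            obtain ⟨b, hb1, hb2⟩ := hO₂ h
            exact ⟨b, hb1, hTO₂ J hJ _ hb2⟩) ha (inv_zero_iff.1 hab) had
        refine ⟨Sum.inr i, ?_, hi1, hi2, hi3, hi4⟩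
        rw [Finset.inr_mem_disjSum, mem_Icc]
        omega
    choose! f hf1 hf2 using hall
    obtain ⟨J, hJ, J', hJ', hne, heq⟩ := Finset.exists_ne_map_eq_of_card_lt_of_maps_to
      (s := B) (t := I.disjSum (Finset.Icc 1 ((j - 1) / 2))) (by
        rw [card_disjSum, Nat.card_Icc]
        omega) (f := f) hf1
    apply hne
    have hmem : ∀ O, f J = Sum.inl O → O ∈ Ω := by
      intro O hO
      have := hf1 J hJ
      rw [hO, Finset.inl_mem_disjSum] at this
      exact hIΩ this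
    have h1 := huniq (f J) hmem J hJ J' hJ' (hf2 J hJ) (heq ▸ hf2 J' hJ')
    have h2 := Tset_subset hd (hFΩ J hJ) (hFΩ J' hJ') h1
    apply eq_of_subset_of_card_le
    · intro O hO
      have h3 := h2 (mem_insert_of_mem hO)
      rw [hF, mem_insert] at h3
      rcases h3 with h3 | h3
      · rw [h3] at hO
        exact absurd hO (hO₁J J hJ)
      · exact h3
    · rw [(hB1 J hJ).2, (hB1 J' hJ').2]
  by_cases hper : ∃ J ∈ B, ∃ v ∈ Per (T J), v ≠ 0
  · obtain ⟨J, hJ, v, hv, hv0⟩ := hper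
    -- all elements are periods when `j ≤ d`
    have hsmall : j ≤ d → ∀ J ∈ B, (∃ v ∈ Per (T J), v ≠ 0) → ∀ x ∈ T J, x ∈ Per (T J) := by
      intro hjd J hJ ⟨v, hv, hv0⟩ x hx
      by_contra hxG
      have := card_ge hd hζ (Per (T J)) (fun a ha g hg => smul_mem_Per hd (hTst J hJ) ha hg)
        hv hv0 (hTst J hJ) (fun x hx g hg => hg x hx) hx hxG
      rw [hTc J hJ] at this
      have h1 : d * j ≤ d * d := Nat.mul_le_mul_left _ hjd
      nlinarith
    -- `p` divides the cardinality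
    have hpt : p ∣ d * j + ε := by
      have h1 : Inv (1 : K) v (T J) := inv_one_iff.2 hv
      have h2 := h1.sum_id one_ne_zero
      rw [one_smul, add_eq_left, hTc J hJ, ← Nat.cast_smul_eq_nsmul K, smul_eq_zero] at h2
      rcases h2 with h2 | h2
      · exact (CharP.cast_eq_zero_iff K p _).1 h2
      · exact absurd h2 hv0
    have hj2 : 2 ≤ j := by
      by_contra hcon2
      have hj1 : j = 1 := by omega
      have hall := hsmall (by omega) J hJ ⟨v, hv, hv0⟩
      have h0 : (0 : V) ∈ T J := by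
        have h1 := (Per (T J)).neg_mem (hall x₁ (hTx J hJ))
        have h2 := h1 x₁ (hTx J hJ)
        rwa [add_neg_cancel] at h2
      have hε1 : ε = 1 := (hT0 J hJ).1 h0
      apply hpow
      refine ⟨hj1, hε1, ?_⟩
      obtain ⟨n, hn⟩ := card_pow_of_addSubgroup p hpV (Per (T J))
      refine ⟨n, ?_⟩
      rw [← hn]
      have h3 : (T J).card = d + 1 := by rw [hTc J hJ, hj1, hε1, mul_one]
      rw [← h3]
      have h4 : ∀ g, g ∈ Per (T J) ↔ g ∈ T J := by
        intro g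
        constructor
        · intro hg
          have := hg 0 h0
          rwa [zero_add] at this
        · exact hall g
      rw [← Nat.card_congr (Equiv.subtypeEquivRight h4).symm]
      simp
    refine hfinal (if j ≤ d then {O₁} else Ω) ?_ ?_ ?_
    · split_ifs
      · rw [singleton_subset_iff]; exact hO₁Ω
      · exact Subset.refl _
    · intro J hJ hper
      split_ifs with h
      · exact ⟨O₁, mem_singleton_self _, x₁, self_mem_orb hd _, hsmall h J hJ hper _ (hTx J hJ)⟩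
      · obtain ⟨v, hv, hv0⟩ := hper
        exact ⟨orb K d v, mem_Om.2 ⟨v, hv0, rfl⟩, v, self_mem_orb hd _, hv⟩
    · rw [hB3]
      apply arith_one j d m _ hj2 hmj
      · split_ifs
        · rw [card_singleton]
        · exact le_rfl
      · intro hjd
        by_cases h4 : 4 ≤ j
        · exact Or.inl h4
        · right
          have hj3 : j = 3 := by omega
          have hd2' : d = 2 := by omega
          refine ⟨hj3, ?_⟩
          obtain ⟨n, hn⟩ := card_pow p hpV
          rw [Nat.card_eq_fintype_card] at hn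
          apply arith_three p n m hp.out _ (by rw [← hn, ← hΩc, hd2']; ring) (by omega)
          · rw [hd2', hj3] at hpt
            interval_cases ε
            · left; exact hpt
            · right; exact hpt
          · rintro rfl
            -- `d = 2` divides `card K - 1`, impossible in characteristic two
            have h1 : ζ ≠ 1 := hζ.ne_one (by omega)
            have h2 := hζ.pow_eq_one
            rw [hd2'] at h2
            have h3 : (2 : K) = 0 := by
              have := CharP.cast_eq_zero K 2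
              exact_mod_cast this
            apply h1
            have h5 : (ζ - 1) ^ 2 = 0 := by
              have : (ζ - 1) ^ 2 = ζ ^ 2 - 2 * ζ + 1 := by ring
              rw [this, h2, h3]
              have h6 : (1 : K) + 1 = 0 := by rw [one_add_one_eq_two, h3]
              linear_combination h6
            exact sub_eq_zero.1 (by simpa using h5)
  · push Not at hper
    refine hfinal ∅ (by simp) ?_ ?_
    · intro J hJ ⟨v, hv, hv0⟩
      exact absurd (hper J hJ v hv) hv0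
    · rw [hB3, card_empty, zero_add]
      exact arith_two j m hj hmj

end Q155.AGL
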