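import Pool.Agent.Q155.AGL.One
import Pool.Agent.Q155.AGL.Main

set_option autoImplicit false

namespace Q155.AGL

open Finset

section Non

variable {K V : Type*} [Field K] [AddCommGroup V] [Module K V]

theorem not_good_card_one [Finite K] {d : ℕ} (hdK : d ∣ Nat.card K - 1) (h : d ≠ Nat.card K - 1)
    {T : Finset V} (hT : T.card = 1) : ¬ Good K d T := by
  classical
  intro hg
  apply h
  have := Fintype.ofFinite K
  obtain ⟨v, rfl⟩ := card_eq_one.1 hT
  have h1 : ∀ a : K, a ≠ 0 → a ^ d = 1 := by
    intro a ha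
    have h2 : Inv a ((1 - a) • v) ({v} : Finset V) := by
      intro x hx
      rw [mem_singleton] at hx ⊢
      subst hx
      rw [sub_smul, one_smul]
      abel
    exact ((hg a ha _).1 h2).1
  have hK : 0 < Nat.card K - 1 := by
    have := Finite.one_lt_card (α := K)
    omega
  have hd : 0 < d := Nat.pos_of_dvd_of_pos hdK hK
  have h3 : (univ.erase (0 : K)) ⊆ Polynomial.nthRootsFinset d (1 : K) := by
    intro a ha
    rw [Polynomial.mem_nthRootsFinset hd]
    exact h1 a (mem_erase.1 ha).1
  have h4 := card_le_card h3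
  rw [card_erase_of_mem (mem_univ _), card_univ, ← Nat.card_eq_fintype_card] at h4
  have h5 : (Polynomial.nthRootsFinset d (1 : K)).card ≤ d := by
    rw [Polynomial.nthRootsFinset_def]
    exact (Multiset.toFinset_card_le _).trans (Polynomial.card_nthRoots d 1)
  have h6 := Nat.le_of_dvd hK hdK
  omega

theorem not_good_card_two {T : Finset V} (hT : T.card = 2) : ¬ Good K 1 T := by
  classical
  intro hg
  obtain ⟨x, y, hxy, rfl⟩ := card_eq_two.1 hT
  have h2 : Inv (-1 : K) (x + y) ({x, y} : Finset V) := by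
    intro z hz
    rw [mem_insert, mem_singleton] at hz ⊢
    rcases hz with rfl | rfl
    · right; rw [neg_one_smul]; abel
    · left; rw [neg_one_smul]; abel
  obtain ⟨h3, h4⟩ := (hg (-1) (by simp) _).1 h2
  rw [pow_one] at h3
  apply hxy
  have h5 : y = (-1 : K) • x := by
    rw [neg_one_smul]
    exact (neg_eq_of_add_eq_zero_right h4).symm
  rw [h5, h3, one_smul]

theorem not_good_pow [Finite K] (p : ℕ) [hp : Fact p.Prime] [CharP K p] {d β : ℕ}
    (hd2 : 2 ≤ d) (hdK : d ∣ Nat.card K - 1) (hpow : d + 1 = p ^ β) {T : Finset V}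
    (hT : T.card = d + 1) : ¬ Good K d T := by
  classical
  intro hg
  obtain ⟨ζ, hζ⟩ := exists_prim K d hdK
  have hd : 0 < d := by omega
  have hst : St K d T := by
    intro a ha
    exact inv_zero_iff.1 ((hg a (ne_zero_of_root hd ha) 0).2 ⟨ha, rfl⟩)
  obtain ⟨x, hx, hx0⟩ := Finset.exists_mem_ne (show 1 < T.card by omega) (0 : V)
  have hsub : orb K d x ⊆ T := by
    intro y hy
    obtain ⟨a, ha, rfl⟩ := (mem_orb hd).1 hy
    exact hst a ha x hx
  have hoc : (orb K d x).card = d := card_orb hζ hx0
  have hc1 : (T \ orb K d x).card = 1 := by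
    rw [card_sdiff_of_subset hsub, hT, hoc]
    omega
  obtain ⟨y, hy⟩ := card_eq_one.1 hc1
  have hyT : y ∈ T \ orb K d x := by rw [hy]; exact mem_singleton_self y
  rw [mem_sdiff] at hyT
  have hζ0 : ζ ≠ 0 := hζ.ne_zero (by omega)
  have h1 : ζ • y ∈ T \ orb K d x := by
    rw [mem_sdiff]
    refine ⟨hst ζ hζ.pow_eq_one y hyT.1, fun h => hyT.2 ?_⟩
    have := smul_mem_orb hd h (a := ζ⁻¹) (by rw [inv_pow, hζ.pow_eq_one, inv_one])
    rwa [inv_smul_smul₀ hζ0] at this
  rw [hy, mem_singleton] at h1
  have hy0 : y = 0 := by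
    by_contra hne
    have : ζ = 1 := smul_injective hne (by simpa using h1)
    exact hζ.ne_one (by omega) this
  subst hy0
  have hmem : ∀ z, z ∈ T ↔ z = 0 ∨ z ∈ orb K d x := by
    intro z
    constructor
    · intro hz
      by_cases h : z ∈ orb K d x
      · exact Or.inr h
      · left
        have : z ∈ T \ orb K d x := mem_sdiff.2 ⟨hz, h⟩
        rw [hy, mem_singleton] at this
        exact this
    · rintro (rfl | h)
      · exact hyT.1
      · exact hsub h
  have hinv : Inv (1 : K) x T := by
    rw [inv_one_iff]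
    intro z hz
    have hz' : ∃ u : K, u ^ (d + 1) = u ∧ z = u • x := by
      rcases (hmem z).1 hz with rfl | h
      · exact ⟨0, by rw [zero_pow (by omega)], by rw [zero_smul]⟩
      · obtain ⟨a, ha, rfl⟩ := (mem_orb hd).1 h
        exact ⟨a, by rw [pow_succ, ha, one_mul], rfl⟩
    obtain ⟨u, hu, rfl⟩ := hz'
    have h3 : (u + 1) ^ (d + 1) = u + 1 := by
      rw [hpow] at hu ⊢
      rw [add_pow_char_pow, hu, one_pow]
    have h4 : u • x + x = (u + 1) • x := by rw [add_smul, one_smul]
    rw [h4, hmem]
    by_cases h5 : u + 1 = 0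
    · left; rw [h5, zero_smul]
    · right
      rw [mem_orb hd]
      refine ⟨u + 1, ?_, rfl⟩
      rw [pow_succ] at h3
      exact mul_right_cancel₀ h5 (by rw [h3, one_mul])
  exact hx0 ((hg 1 one_ne_zero x).1 hinv).2

theorem seven_dec : ∀ T : Finset (ZMod 7), T.card = 3 →
    ∃ a b : ZMod 7, a ≠ 0 ∧ ¬ (a = 1 ∧ b = 0) ∧ ∀ x ∈ T, a * x + b ∈ T := by
  decide +kernel

theorem not_good_seven [Fintype V] [CharP K 7] (hV : Fintype.card V = 7) {T : Finset V}
    (hT : T.card = 3) : ¬ Good K 1 T := by
  classical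
  intro hg
  have : Fact (Nat.Prime 7) := ⟨by norm_num⟩
  have : Nontrivial V := Fintype.one_lt_card_iff_nontrivial.1 (by omega)
  obtain ⟨v, hv⟩ := exists_ne (0 : V)
  set c : ZMod 7 →+* K := ZMod.castHom (dvd_refl 7) K with hc
  set φ : ZMod 7 → V := fun i => c i • v with hφ
  have hinj : Function.Injective φ := by
    intro i j hij
    exact c.injective (smul_injective hv hij)
  have hbij : Function.Bijective φ := by
    rw [Fintype.bijective_iff_injective_and_card]
    exact ⟨hinj, by rw [hV, ZMod.card]⟩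
  set T' : Finset (ZMod 7) := univ.filter (fun i => φ i ∈ T) with hT'
  have hTT : T'.image φ = T := by
    ext y
    rw [mem_image]
    constructor
    · rintro ⟨i, hi, rfl⟩
      exact (mem_filter.1 hi).2
    · intro hy
      obtain ⟨i, rfl⟩ := hbij.2 y
      exact ⟨i, mem_filter.2 ⟨mem_univ _, hy⟩, rfl⟩
  have hcard : T'.card = 3 := by
    rw [← hT, ← hTT, card_image_of_injective _ hinj]
  obtain ⟨a, b, ha, hab, hinv⟩ := seven_dec T' hcard
  have h1 : Inv (c a) (φ b) T := by
    intro y hy
    obtain ⟨i, rfl⟩ := hbij.2 y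
    have h2 := hinv i (mem_filter.2 ⟨mem_univ _, hy⟩)
    have h3 := (mem_filter.1 h2).2
    have e : φ (a * i + b) = c a • φ i + φ b := by
      simp only [hφ, map_add, map_mul, add_smul, mul_smul]
    rwa [e] at h3
  obtain ⟨h2, h3⟩ := (hg (c a) ((map_ne_zero c).2 ha) _).1 h1
  apply hab
  rw [pow_one] at h2
  refine ⟨c.injective (by rw [h2, map_one]), hinj ?_⟩
  rw [h3]
  simp [hφ]

end Non

variable {K V : Type*} [Field K] [Finite K] [AddCommGroup V] [Module K V] [Fintype V]

theorem classify (p : ℕ) [hp : Fact p.Prime] [CharP K p] (d t : ℕ) (hdK : d ∣ Nat.card K - 1)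
    (ht1 : 1 ≤ t) (hN : 2 * t ≤ Fintype.card V) (hmod : d ∣ t ∨ d ∣ t - 1) :
    (¬ ∃ T : Finset V, T.card = t ∧ Good K d T) ↔
      ((t = 1 ∧ d ≠ Nat.card K - 1) ∨ (t = 2 ∧ d = 1) ∨ (t = d + 1 ∧ ∃ β, d + 1 = p ^ β) ∨
        (d = 1 ∧ Fintype.card V = 7 ∧ t = 3)) := by
  classical
  have hpV : ∀ v : V, p • v = 0 := by
    intro v
    rw [← Nat.cast_smul_eq_nsmul K, CharP.cast_eq_zero, zero_smul]
  obtain ⟨n, hn⟩ := card_pow p hpV
  rw [Nat.card_eq_fintype_card] at hn
  have hK : 0 < Nat.card K - 1 := by
    have := Finite.one_lt_card (α := K)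
    omega
  have hd : 0 < d := Nat.pos_of_dvd_of_pos hdK hK
  constructor
  · intro hno
    by_contra hcon
    simp only [not_or] at hcon
    obtain ⟨h1, h2, h3, h4⟩ := hcon
    apply hno
    rcases Nat.lt_or_ge 1 t with ht | ht
    · rcases Nat.lt_or_ge 1 d with hd1 | hd1
      · -- several roots of unity
        obtain ⟨j, ε, hε, hj, rfl⟩ : ∃ j ε, ε ≤ 1 ∧ 1 ≤ j ∧ t = d * j + ε := by
          rcases hmod with ⟨j, hj⟩ | ⟨j, hj⟩
          · refine ⟨j, 0, by omega, ?_, by omega⟩
            rcases Nat.eq_zero_or_pos j with rfl | h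
            · omega
            · exact h
          · refine ⟨j, 1, le_rfl, ?_, by omega⟩
            rcases Nat.eq_zero_or_pos j with rfl | h
            · omega
            · exact h
        apply exists_good_many p d j ε (by omega) hdK hj hε hN
        rintro ⟨rfl, rfl, h5⟩
        exact h3 ⟨by omega, h5⟩
      · have hd1 : d = 1 := by omega
        subst hd1
        have ht3 : 3 ≤ t := by
          by_contra hlt
          exact h2 ⟨by omega, rfl⟩
        by_cases h22 : (2 : K) = 0
        · rcases Nat.even_or_odd t with hev | hodd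
          · obtain ⟨m, hm⟩ := hev
            exact exists_good_char_two_even h22 t ⟨m, hm⟩ (by omega) hN
          · exact exists_good_char_two_odd h22 t hodd ht3 hN
        · by_cases htK : (t : K) = 0
          · exact exists_good_of_dvd h22 t htK ht1 (by omega)
          · have : Nontrivial V := Fintype.one_lt_card_iff_nontrivial.1 (by omega)
            apply exists_good_odd_char h22 t htK ht3 _ hN
            by_contra h8
            push Not at h8
            have h67 : Fintype.card V = 6 ∨ Fintype.card V = 7 := by omega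
            rcases h67 with h6 | h7
            · rw [h6] at hn
              have e1 : (2 : ℕ) ∣ p ^ n := by rw [← hn]; norm_num
              have e2 : (3 : ℕ) ∣ p ^ n := by rw [← hn]; norm_num
              have e3 := (Nat.prime_dvd_prime_iff_eq Nat.prime_two hp.out).1
                (Nat.prime_two.dvd_of_dvd_pow e1)
              have e4 := (Nat.prime_dvd_prime_iff_eq Nat.prime_three hp.out).1
                (Nat.prime_three.dvd_of_dvd_pow e2)
              omega
            · exact h4 ⟨rfl, h7, by omega⟩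
    · have ht' : t = 1 := by omega
      subst ht'
      have hdK' : d = Nat.card K - 1 := by
        by_contra h
        exact h1 ⟨rfl, h⟩
      refine ⟨{0}, card_singleton _, ?_⟩
      intro a ha b
      constructor
      · intro h
        have h5 := h 0 (mem_singleton_self _)
        rw [mem_singleton, smul_zero, zero_add] at h5
        refine ⟨?_, h5⟩
        have := Fintype.ofFinite K
        rw [hdK', Nat.card_eq_fintype_card]
        exact FiniteField.pow_card_sub_one_eq_one a ha
      · rintro ⟨-, rfl⟩ x hx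
        rw [mem_singleton] at hx ⊢
        rw [hx, smul_zero, zero_add]
  · rintro (⟨rfl, h⟩ | ⟨rfl, rfl⟩ | ⟨rfl, β, h⟩ | ⟨rfl, h, rfl⟩) ⟨T, hT, hg⟩
    · exact not_good_card_one hdK h hT hg
    · exact not_good_card_two hT hg
    · rcases Nat.lt_or_ge 1 d with hd1 | hd1
      · exact not_good_pow p hd1 hdK h hT hg
      · have hd1 : d = 1 := by omega
        subst hd1
        exact not_good_card_two hT hg
    · have hp7 : p = 7 := by
        rw [h] at hn
        have e1 : (7 : ℕ) ∣ p ^ n := by rw [← hn]
        have h7 : Nat.Prime 7 := by norm_num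
        exact ((Nat.prime_dvd_prime_iff_eq h7 hp.out).1 (h7.dvd_of_dvd_pow e1)).symm
      subst hp7
      exact not_good_seven h hT hg

end Q155.AGL
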