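import Pool.Agent.Q155.AGL.Ball

set_option autoImplicit false

namespace Q155.AGL

open Finset

section

variable {K V : Type*} [Field K] [AddCommGroup V] [Module K V]

/-- The map `x ↦ a x + b` sends `T` into itself. -/
def Inv (a : K) (b : V) (T : Finset V) : Prop := ∀ x ∈ T, a • x + b ∈ T

variable (K) in
/-- The affine maps `x ↦ a x + b`, `a ≠ 0`, preserving `T` are exactly those with `a ^ d = 1`, `b = 0`. -/
def Good (d : ℕ) (T : Finset V) : Prop :=
  ∀ a : K, a ≠ 0 → ∀ b : V, Inv a b T ↔ (a ^ d = 1 ∧ b = 0)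

theorem Inv.image_eq [DecidableEq V] {a : K} (ha : a ≠ 0) {b : V} {T : Finset V} (h : Inv a b T) :
    T.image (fun x => a • x + b) = T := by
  apply Finset.eq_of_subset_of_card_le
  · intro y hy
    rw [mem_image] at hy
    obtain ⟨x, hx, rfl⟩ := hy
    exact h x hx
  · rw [card_image_of_injective]
    intro x y hxy
    simp only [add_left_inj] at hxy
    exact smul_right_injective V ha hxy

theorem Inv.surj {a : K} (ha : a ≠ 0) {b : V} {T : Finset V} (h : Inv a b T) (y : V) (hy : y ∈ T) :
    ∃ x ∈ T, a • x + b = y := by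
  classical
  rw [← h.image_eq ha, mem_image] at hy
  exact hy

theorem Inv.sum {M : Type*} [AddCommMonoid M] {a : K} (ha : a ≠ 0) {b : V} {T : Finset V}
    (h : Inv a b T) (f : V → M) : ∑ x ∈ T, f (a • x + b) = ∑ x ∈ T, f x := by
  classical
  conv_rhs => rw [← h.image_eq ha]
  rw [sum_image]
  intro x _ y _ hxy
  simp only [add_left_inj] at hxy
  exact smul_right_injective V ha hxy

theorem Inv.sum_id {a : K} (ha : a ≠ 0) {b : V} {T : Finset V}
    (h : Inv a b T) : a • (∑ x ∈ T, x) + T.card • b = ∑ x ∈ T, x := by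
  have := h.sum ha (fun x => x)
  rw [sum_add_distrib, ← smul_sum, sum_const] at this
  exact this

theorem inv_one_iff {b : V} {T : Finset V} : Inv (1 : K) b T ↔ ∀ x ∈ T, x + b ∈ T := by
  unfold Inv
  simp

theorem inv_zero_iff {a : K} {T : Finset V} : Inv a (0 : V) T ↔ ∀ x ∈ T, a • x ∈ T := by
  unfold Inv
  simp

/-- Invariance under a homothety with centre `c` passes to powers. -/
theorem homothety_pow {a : K} {c : V} {T : Finset V} (h : ∀ x ∈ T, a • (x - c) + c ∈ T) (n : ℕ) :
    ∀ x ∈ T, a ^ n • (x - c) + c ∈ T := by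
  induction n with
  | zero => intro x hx; simpa using hx
  | succ n ih =>
    intro x hx
    have := h _ (ih x hx)
    rw [add_sub_cancel_right, smul_smul, ← pow_succ'] at this
    exact this

theorem exists_of_not_good {d : ℕ} {T : Finset V} (hd : ∀ a : K, a ^ d = 1 → ∀ x ∈ T, a • x ∈ T)
    (h : ¬ Good K d T) : ∃ a : K, a ≠ 0 ∧ ∃ b : V, Inv a b T ∧ ¬ (a ^ d = 1 ∧ b = 0) := by
  unfold Good at h
  push Not at h
  obtain ⟨a, ha, b, hab⟩ := h
  refine ⟨a, ha, b, ?_⟩
  rcases hab with ⟨h1, h2⟩ | ⟨h1, h2⟩
  · exact ⟨h1, fun h => h2 h.1 h.2⟩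
  · exfalso
    apply h1
    rw [h2.2, inv_zero_iff]
    exact hd a h2.1

end

section CharTwoOdd

variable {K V : Type*} [Field K] [Finite K] [AddCommGroup V] [Module K V] [Fintype V]

theorem exists_good_char_two_odd (h2 : (2 : K) = 0) (t : ℕ) (ht : Odd t) (h3 : 3 ≤ t)
    (hN : 2 * t ≤ Fintype.card V) : ∃ T : Finset V, T.card = t ∧ Good K 1 T := by
  classical
  have := Fintype.ofFinite K
  by_contra hcon
  push Not at hcon
  have hV2 : ∀ v : V, v + v = 0 := by
    intro v
    have h : (2 : K) • v = 0 := by rw [h2, zero_smul]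
    rwa [two_smul] at h
  have key : ∀ T : Finset V, T.card = t → ∃ (c : V) (i : ℕ), 1 ≤ i ∧ 2 * i + 1 ≤ t ∧
      ∃ a : K, IsPrimitiveRoot a (2 * i + 1) ∧ ∀ x ∈ T, a • (x - c) + c ∈ T := by
    intro T hT
    obtain ⟨a, ha, b, hab, hne⟩ := exists_of_not_good (d := 1) (K := K) (T := T)
      (by intro a h x hx; rw [pow_one] at h; rw [h, one_smul]; exact hx) (hcon T hT)
    rw [pow_one] at hne
    have ha1 : a ≠ 1 := by
      rintro rfl
      apply hne
      refine ⟨rfl, ?_⟩
      have h := hab.sum_id ha
      rw [one_smul, add_eq_left, hT] at h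
      obtain ⟨m, rfl⟩ := ht
      rw [add_nsmul, mul_comm, mul_nsmul, two_nsmul, ← nsmul_add, hV2, nsmul_zero] at h
      simpa using h
    have h1a : (1 : K) - a ≠ 0 := sub_ne_zero.2 (Ne.symm ha1)
    set c : V := (1 - a)⁻¹ • b with hc
    have hb : b = (1 - a) • c := by rw [hc, smul_inv_smul₀ h1a]
    have hinv : ∀ x ∈ T, a • (x - c) + c ∈ T := by
      intro x hx
      have h := hab x hx
      rw [hb] at h
      have e : a • (x - c) + c = a • x + (1 - a) • c := by
        rw [smul_sub, sub_smul, one_smul]; abel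
      rw [e]
      exact h
    have hfin : 0 < orderOf a := by
      rw [orderOf_pos_iff, isOfFinOrder_iff_pow_eq_one]
      refine ⟨Fintype.card K - 1, ?_, FiniteField.pow_card_sub_one_eq_one a ha⟩
      have := Fintype.one_lt_card (α := K)
      omega
    have hprim := IsPrimitiveRoot.orderOf a
    set e := orderOf a with he
    have hodd : Odd e := by
      by_contra hev
      rw [Nat.not_odd_iff_even] at hev
      obtain ⟨f, hf⟩ := hev
      have h4 : (a ^ f - 1) ^ 2 = 0 := by
        have : a ^ e = 1 := hprim.pow_eq_one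
        rw [hf, pow_add] at this
        have h5 : (a ^ f - 1) ^ 2 = a ^ f * a ^ f - 2 * a ^ f + 1 := by ring
        rw [h5, this, h2]
        have h6 : (1 : K) + 1 = 0 := by rw [one_add_one_eq_two, h2]
        linear_combination h6
      have h7 : a ^ f = 1 := sub_eq_zero.1 (by simpa using h4)
      have h8 := hprim.dvd_of_pow_eq_one _ h7
      have h9 := Nat.le_of_dvd (by omega) h8
      omega
    have hne1 : e ≠ 1 := by
      intro h
      have := hprim.pow_eq_one
      rw [h, pow_one] at this
      exact ha1 this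
    obtain ⟨i, hi⟩ := hodd
    refine ⟨c, i, by omega, ?_, a, hi ▸ hprim, hinv⟩
    -- bound on the order
    obtain ⟨x, hx, hxc⟩ : ∃ x ∈ T, x ≠ c := by
      have h5 : 1 < T.card := by omega
      exact Finset.exists_mem_ne h5 c
    have hinj : Set.InjOn (fun n : ℕ => a ^ n • (x - c) + c) (Finset.range e : Set ℕ) := by
      intro n hn m hm hnm
      simp only [add_left_inj] at hnm
      rw [mem_coe, mem_range] at hn hm
      have h6 : (a ^ n - a ^ m) • (x - c) = 0 := by rw [sub_smul, hnm, sub_self]
      rw [smul_eq_zero] at h6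
      rcases h6 with h6 | h6
      · exact hprim.pow_inj hn hm (sub_eq_zero.1 h6)
      · exact absurd (sub_eq_zero.1 h6) hxc
    have h7 := Finset.card_le_card_of_injOn _ (fun n _ => homothety_pow hinv n x hx) hinj
    rw [card_range] at h7
    omega
  obtain ⟨B, hB1, hB2, hB3⟩ := exists_ball (univ : Finset V) t (by rw [card_univ]; omega)
  choose! c i hi1 hi2 a ha hinv using key
  have hlt : ((univ : Finset V) ×ˢ Finset.Icc 1 ((t - 1) / 2)).card < B.card := by
    rw [hB3, card_product, card_univ, Nat.card_Icc]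
    obtain ⟨m, hm⟩ := ht
    have e1 : (t - 1) / 2 + 1 - 1 = m := by omega
    rw [e1]
    obtain ⟨n, hn⟩ : ∃ n, Fintype.card V = t + n := ⟨Fintype.card V - t, by omega⟩
    have e2 : Fintype.card V - t = n := by omega
    rw [e2, hn, hm]
    nlinarith
  obtain ⟨T, hT, T', hT', hne, heq⟩ := Finset.exists_ne_map_eq_of_card_lt_of_maps_to hlt
    (f := fun T => (c T, i T)) (by
      intro T hT
      simp only [coe_product, coe_univ, Set.mem_prod, Set.mem_univ, coe_Icc, Set.mem_Icc, true_and]
      have h1 := hi1 T (hB1 T hT).2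
      have h2 := hi2 T (hB1 T hT).2
      omega)
  simp only [Prod.mk.injEq] at heq
  have main : ∀ T ∈ B, ∀ T' ∈ B, c T = c T' → i T = i T' → T \ T' ⊆ {c T} := by
    intro T hT T' hT' hc hi x hx
    rw [mem_singleton]
    by_contra hxc
    have hprim := ha T (hB1 T hT).2
    have hprim' := ha T' (hB1 T' hT').2
    rw [← hi] at hprim'
    obtain ⟨n, -, hn⟩ := hprim.eq_pow_of_pow_eq_one hprim'.pow_eq_one
    obtain ⟨n', -, hn'⟩ := hprim'.eq_pow_of_pow_eq_one hprim.pow_eq_one
    have hinvT := hinv T (hB1 T hT).2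
    have hinvT' := hinv T' (hB1 T' hT').2
    rw [← hc] at hinvT'
    -- the difference is invariant
    have hD : ∀ x ∈ T \ T', a T • (x - c T) + c T ∈ T \ T' := by
      intro x hx
      rw [mem_sdiff] at hx ⊢
      refine ⟨hinvT x hx.1, fun hmem => hx.2 ?_⟩
      have h1 := homothety_pow hinvT' n' _ hmem
      rw [add_sub_cancel_right, smul_smul, hn'] at h1
      have h2 := homothety_pow hinvT' (n' * (2 * i T)) _ hmem
      rw [add_sub_cancel_right, smul_smul, pow_mul, hn', ← pow_succ, hprim.pow_eq_one,
        one_smul, sub_add_cancel] at h2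
      exact h2
    have h1 := hD x hx
    have h2 := hD _ h1
    rw [add_sub_cancel_right, smul_smul] at h2
    have hcard := hB2 T hT T' hT'
    have hsub : ({x, a T • (x - c T) + c T, (a T * a T) • (x - c T) + c T} : Finset V) ⊆ T \ T' := by
      intro y hy
      simp only [mem_insert, mem_singleton] at hy
      rcases hy with rfl | rfl | rfl
      · exact hx
      · exact h1
      · exact h2
    have hi1T := hi1 T (hB1 T hT).2
    have hxc' : x - c T ≠ 0 := sub_ne_zero.2 hxc
    have hcase : ∀ r s : K, r ≠ s → r • (x - c T) + c T ≠ s • (x - c T) + c T := by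
      intro r s hrs h
      rw [add_left_inj, ← sub_eq_zero, ← sub_smul, smul_eq_zero] at h
      rcases h with h | h
      · exact hrs (sub_eq_zero.1 h)
      · exact hxc' h
    have hone : x = (1 : K) • (x - c T) + c T := by rw [one_smul, sub_add_cancel]
    have ha1 : a T ≠ 1 := by
      intro h
      have := hprim.dvd_of_pow_eq_one 1 (by rw [pow_one, h])
      have := Nat.le_of_dvd (by norm_num) this
      omega
    have haa1 : a T * a T ≠ 1 := by
      intro h
      have := hprim.dvd_of_pow_eq_one 2 (by rw [pow_two, h])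
      have := Nat.le_of_dvd (by norm_num) this
      omega
    have haaa : a T * a T ≠ a T := by
      intro h
      have h0 : a T ≠ 0 := by
        intro h0
        have := hprim.pow_eq_one
        rw [h0, zero_pow (by omega)] at this
        exact zero_ne_one this
      exact ha1 (mul_left_cancel₀ h0 (by rw [h, mul_one]))
    have h3 := card_le_card hsub
    rw [card_insert_of_notMem, card_pair] at h3
    · omega
    · exact hcase _ _ (Ne.symm haaa)
    · simp only [mem_insert, mem_singleton, not_or]
      constructor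
      · intro h
        exact hcase 1 (a T) (Ne.symm ha1) (hone.symm.trans h)
      · intro h
        exact hcase 1 (a T * a T) (Ne.symm haa1) (hone.symm.trans h)
  have s1 := main T hT T' hT' heq.1 heq.2
  have s2 := main T' hT' T hT heq.1.symm heq.2.symm
  rw [← heq.1] at s2
  have c1 := (hB1 T hT).2
  have c2 := (hB1 T' hT').2
  have hcard : (T \ T').card = (T' \ T).card := by
    rw [card_sdiff, card_sdiff, inter_comm, c1, c2]
  by_cases hD : (T \ T').card = 0
  · apply hne
    rw [card_eq_zero, sdiff_eq_empty_iff_subset] at hD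
    exact eq_of_subset_of_card_le hD (by omega)
  · have h1 : (T \ T').Nonempty := card_pos.1 (by omega)
    have h2 : (T' \ T).Nonempty := card_pos.1 (by omega)
    obtain ⟨x, hx⟩ := h1
    obtain ⟨y, hy⟩ := h2
    have e1 := mem_singleton.1 (s1 hx)
    have e2 := mem_singleton.1 (s2 hy)
    rw [e1, ← e2] at hx
    exact (mem_sdiff.1 hx).2 (mem_sdiff.1 hy).1

end CharTwoOdd

end Q155.AGL
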