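import Mathlib

set_option autoImplicit false

/-! Definitions for the exact stabilizer counts of `AGL(1, F)` on subsets of a field `F`. -/

namespace Q155.AGL

/-- `AGL(1, F)` as a set of permutations of `F`: the maps `x ↦ a x + b` with `a ≠ 0`. -/
def affineGroup (F : Type*) [Field F] : Set (Equiv.Perm F) :=
  {σ | ∃ a b : F, a ≠ 0 ∧ ∀ x, σ x = a * x + b}

/-- The stabilizer of `B` in `AGL(1, F)`: the `σ` in `AGL(1, F)` with `σ(B) = B`. -/
def stabilizerOf {F : Type*} [Field F] (B : Set F) : Set (Equiv.Perm F) :=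
  {σ | σ ∈ affineGroup F ∧ σ '' B = B}

/-- `S_{d,H}`: the maps `x ↦ u x + h` with `u ^ d = 1` and `h ∈ H`. -/
def groupS {F : Type*} [Field F] (d : ℕ) (H : AddSubgroup F) : Set (Equiv.Perm F) :=
  {σ | ∃ u h : F, u ^ d = 1 ∧ h ∈ H ∧ ∀ x, σ x = u * x + h}

/-- `N(S_{d,H}, k)`: the number of `k`-subsets of `F` whose stabilizer in `AGL(1, F)` is exactly
`S_{d,H}`. -/
noncomputable def exactCount {F : Type*} [Field F] (d : ℕ) (H : AddSubgroup F) (k : ℕ) : ℕ :=
  {B : Set F | B.ncard = k ∧ stabilizerOf B = groupS d H}.ncard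

/-- `H' = {x : x H ⊆ H}`. -/
def multipliers {F : Type*} [Field F] (H : AddSubgroup F) : Set F :=
  {x | ∀ h ∈ H, x * h ∈ H}

end Q155.AGL
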