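import Pool.Agent.Q155.AGL.Per

set_option autoImplicit false

namespace Q155.AGL

open Finset

variable {K V : Type*} [Field K] [Finite K] [AddCommGroup V] [Module K V]

theorem pow_eq_one_of_mem (A : Subgroup Kˣ) (u : Kˣ) : u ^ Nat.card A = 1 ↔ u ∈ A := by
  classical
  have := Fintype.ofFinite K
  have := Fintype.ofFinite A
  set S : Finset Kˣ := univ.filter (fun u => u ^ Nat.card A = 1) with hS
  set B : Finset Kˣ := univ.filter (fun u => u ∈ A) with hB
  have hBc : B.card = Nat.card A := by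
    rw [hB, Nat.card_eq_fintype_card, Fintype.card_subtype]
  have hsub : B ⊆ S := by
    intro u hu
    rw [hB, mem_filter] at hu
    rw [hS, mem_filter]
    refine ⟨mem_univ _, ?_⟩
    have h1 := pow_card_eq_one' (x := (⟨u, hu.2⟩ : A))
    have h2 := congrArg Subtype.val h1
    rw [SubmonoidClass.coe_pow] at h2
    exact h2
  have hpos : 0 < Nat.card A := Nat.card_pos
  have hle : S.card ≤ Nat.card A := IsCyclic.card_pow_eq_one_le hpos
  have heq : B = S := eq_of_subset_of_card_le hsub (by rw [hBc]; exact hle)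
  have : u ∈ B ↔ u ∈ S := by rw [heq]
  rw [hB, hS, mem_filter, mem_filter] at this
  simpa using this.symm

theorem hom_index {d j : ℕ} (hd : 2 ≤ d) {ζ : K} (hζ : IsPrimitiveRoot ζ d) {T : Finset V}
    (hT : St K d T) {x₁ : V} (hx₁ : x₁ ∈ T) (hx0 : x₁ ≠ 0)
    (hcard : ∀ D : Finset V, (∀ x ∈ D, x ∈ T ∧ x ≠ 0) → D.card ≤ d * j)
    (hO : (∃ b : K, b ^ (2 * d) = 1 ∧ b ^ d ≠ 1) → ∃ b : K, b ^ (2 * d) = 1 ∧ b • x₁ ∉ T)
    {a : K} (ha : a ≠ 0) (hi : ∀ x ∈ T, a • x ∈ T) (had : a ^ d ≠ 1) :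
    ∃ i : ℕ, 1 ≤ i ∧ 2 * i + 1 ≤ j ∧ (∀ a : K, a ^ (d * (2 * i + 1)) = 1 → ∀ x ∈ T, a • x ∈ T) ∧
      d * (2 * i + 1) ≤ (Polynomial.nthRootsFinset (d * (2 * i + 1)) (1 : K)).card := by
  classical
  have := Fintype.ofFinite K
  set A := hom K T with hA
  have hpos : 0 < Nat.card A := Nat.card_pos
  have hdA : d ∣ Nat.card A := by
    have h1 : (hζ.isUnit (by omega)).unit ∈ A := by
      rw [hA, mem_hom]
      exact hT ζ hζ.pow_eq_one
    have h2 : orderOf (hζ.isUnit (by omega)).unit = d := by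
      have : IsPrimitiveRoot (hζ.isUnit (by omega)).unit d := by
        rw [← IsPrimitiveRoot.coe_units_iff]
        exact hζ
      exact this.eq_orderOf.symm
    rw [← h2]
    exact Subgroup.orderOf_dvd_natCard A h1
  obtain ⟨e, he⟩ := hdA
  have key : ∀ c : K, c ^ (d * e) = 1 → ∀ x ∈ T, c • x ∈ T := by
    intro c hc
    have hc0 : c ≠ 0 := by
      rintro rfl
      rw [zero_pow (by omega)] at hc
      exact zero_ne_one hc
    have h1 : (Units.mk0 c hc0) ^ Nat.card A = 1 := by
      rw [he]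
      apply Units.ext
      rw [Units.val_pow_eq_pow_val, Units.val_mk0, hc, Units.val_one]
    rw [pow_eq_one_of_mem] at h1
    exact h1
  have he0 : e ≠ 0 := by
    rintro rfl
    omega
  have he1 : e ≠ 1 := by
    rintro rfl
    have h1 : Units.mk0 a ha ∈ A := hi
    rw [← pow_eq_one_of_mem, he, mul_one] at h1
    apply had
    have h2 := congrArg Units.val h1
    rwa [Units.val_pow_eq_pow_val, Units.val_mk0, Units.val_one] at h2
  have hodd : Odd e := by
    by_contra hev
    rw [Nat.not_odd_iff_even] at hev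
    obtain ⟨f, hf⟩ := hev
    have hdvd : 2 * d ∣ Nat.card K - 1 := by
      rw [← Nat.card_units]
      refine Dvd.dvd.trans ⟨f, ?_⟩ (Subgroup.card_subgroup_dvd_card A)
      rw [he, hf]
      ring
    obtain ⟨b₀, hb₀⟩ := exists_prim K (2 * d) hdvd
    obtain ⟨b, hb1, hb2⟩ := hO ⟨b₀, hb₀.pow_eq_one, hb₀.pow_ne_one_of_pos_of_lt (by omega)
      (by omega)⟩
    apply hb2
    apply key b _ _ hx₁
    have : d * e = 2 * d * f := by rw [hf]; ring
    rw [this, pow_mul, hb1, one_pow]
  have hinj : ∀ x : V, x ≠ 0 → Function.Injective (fun c : K => c • x) := by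
    intro x hx b c hbc
    by_contra hne
    have : (b - c) • x = 0 := by
      rw [sub_smul]
      exact sub_eq_zero.2 hbc
    rw [smul_eq_zero] at this
    rcases this with h | h
    · exact hne (sub_eq_zero.1 h)
    · exact hx h
  set B : Finset K := univ.filter (fun c => ∃ u ∈ A, (u : K) = c) with hB
  have hBc : B.card = d * e := by
    rw [← he, Nat.card_eq_fintype_card, Fintype.card_subtype]
    symm
    apply Finset.card_bij (fun (u : Kˣ) _ => (u : K))
    · intro u hu
      rw [mem_filter] at hu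
      rw [hB, mem_filter]
      exact ⟨mem_univ _, u, hu.2, rfl⟩
    · intro u _ v _ huv
      exact Units.ext huv
    · intro c hc
      rw [hB, mem_filter] at hc
      obtain ⟨-, u, hu, rfl⟩ := hc
      exact ⟨u, by rw [mem_filter]; exact ⟨mem_univ _, hu⟩, rfl⟩
  have hB0 : ∀ c ∈ B, c ≠ 0 ∧ c ^ (d * e) = 1 ∧ ∀ x ∈ T, c • x ∈ T := by
    intro c hc
    rw [hB, mem_filter] at hc
    obtain ⟨-, u, hu, rfl⟩ := hc
    refine ⟨u.ne_zero, ?_, hu⟩
    rw [← pow_eq_one_of_mem, he] at hu
    have h2 := congrArg Units.val hu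
    rwa [Units.val_pow_eq_pow_val, Units.val_one] at h2
  obtain ⟨i, hi'⟩ := hodd
  have hej : d * e ≤ d * j := by
    rw [← hBc, ← card_image_of_injective B (hinj x₁ hx0)]
    apply hcard
    intro x hx
    rw [mem_image] at hx
    obtain ⟨c, hc, rfl⟩ := hx
    refine ⟨(hB0 c hc).2.2 _ hx₁, ?_⟩
    exact smul_ne_zero (hB0 c hc).1 hx0
  have hej' : e ≤ j := Nat.le_of_mul_le_mul_left hej (by omega)
  refine ⟨i, by omega, by omega, ?_, ?_⟩
  · rw [← hi']
    exact key
  · rw [← hi', ← hBc]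
    apply card_le_card
    intro c hc
    rw [hBc, Polynomial.mem_nthRootsFinset (Nat.pos_of_ne_zero (by
      intro h
      have := Nat.mul_eq_zero.1 h
      omega))]
    exact (hB0 c hc).2.1

omit [Finite K] in
theorem diff_empty_hom {d n : ℕ} (hn : 2 * d < n) [DecidableEq V] {T T' : Finset V}
    (hc : n ≤ (Polynomial.nthRootsFinset n (1 : K)).card)
    (h : ∀ a : K, a ^ n = 1 → ∀ x ∈ T, a • x ∈ T)
    (h' : ∀ a : K, a ^ n = 1 → ∀ x ∈ T', a • x ∈ T')
    (h0 : (0 : V) ∉ T \ T') (hle : (T \ T').card ≤ 2 * d) : T \ T' = ∅ := by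
  by_contra hne
  obtain ⟨x, hx⟩ := Finset.nonempty_iff_ne_empty.2 hne
  have hx0 : x ≠ 0 := by
    rintro rfl
    exact h0 hx
  have h1 : ((Polynomial.nthRootsFinset n (1 : K)).image (fun a => a • x)) ⊆ T \ T' := by
    intro y hy
    rw [mem_image] at hy
    obtain ⟨a, ha, rfl⟩ := hy
    rw [Polynomial.mem_nthRootsFinset (by omega)] at ha
    have ha0 : a ≠ 0 := by
      rintro rfl
      rw [zero_pow (by omega)] at ha
      exact zero_ne_one ha
    rw [mem_sdiff] at hx ⊢
    refine ⟨h a ha x hx.1, fun hm => hx.2 ?_⟩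
    have := h' a⁻¹ (by rw [inv_pow, ha, inv_one]) _ hm
    rwa [inv_smul_smul₀ ha0] at this
  have h2 := card_le_card h1
  rw [card_image_of_injective] at h2
  · omega
  · intro b c hbc
    by_contra hne
    have : (b - c) • x = 0 := by
      rw [sub_smul]
      exact sub_eq_zero.2 hbc
    rw [smul_eq_zero] at this
    rcases this with h | h
    · exact hne (sub_eq_zero.1 h)
    · exact hx0 h

end Q155.AGL
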