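import Pool.Agent.Q155.AGL.Hom

set_option autoImplicit false

namespace Q155.AGL

open Finset

section Orbits

variable (K : Type*) {V : Type*} [Field K] [AddCommGroup V] [Module K V] [DecidableEq V]

/-- The orbit of a vector under the `d`-th roots of unity. -/
noncomputable def orb (d : ℕ) (x : V) : Finset V :=
  (Polynomial.nthRootsFinset d (1 : K)).image (fun a => a • x)

variable {K}

theorem mem_orb {d : ℕ} (hd : 0 < d) {x y : V} : y ∈ orb K d x ↔ ∃ a : K, a ^ d = 1 ∧ a • x = y := by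
  unfold orb
  rw [mem_image]
  constructor
  · rintro ⟨a, ha, h⟩
    rw [Polynomial.mem_nthRootsFinset hd] at ha
    exact ⟨a, ha, h⟩
  · rintro ⟨a, ha, h⟩
    exact ⟨a, by rw [Polynomial.mem_nthRootsFinset hd]; exact ha, h⟩

theorem self_mem_orb {d : ℕ} (hd : 0 < d) (x : V) : x ∈ orb K d x :=
  (mem_orb hd).2 ⟨1, one_pow _, one_smul _ _⟩

theorem ne_zero_of_root {d : ℕ} (hd : 0 < d) {a : K} (ha : a ^ d = 1) : a ≠ 0 := by
  rintro rfl
  rw [zero_pow (by omega)] at ha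
  exact zero_ne_one ha

theorem orb_eq_of_mem {d : ℕ} (hd : 0 < d) {x y : V} (h : y ∈ orb K d x) :
    orb K d y = orb K d x := by
  obtain ⟨a, ha, rfl⟩ := (mem_orb hd).1 h
  have ha0 := ne_zero_of_root hd ha
  ext z
  rw [mem_orb hd, mem_orb hd]
  constructor
  · rintro ⟨c, hc, rfl⟩
    exact ⟨c * a, by rw [mul_pow, hc, ha, one_mul], by rw [mul_smul]⟩
  · rintro ⟨c, hc, rfl⟩
    exact ⟨c * a⁻¹, by rw [mul_pow, hc, inv_pow, ha, inv_one, one_mul],
      by rw [mul_smul, inv_smul_smul₀ ha0]⟩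

theorem smul_mem_orb {d : ℕ} (hd : 0 < d) {x y : V} (h : y ∈ orb K d x) {a : K} (ha : a ^ d = 1) :
    a • y ∈ orb K d x := by
  rw [← orb_eq_of_mem hd h, mem_orb hd]
  exact ⟨a, ha, rfl⟩

omit [DecidableEq V] in
theorem smul_injective {x : V} (hx : x ≠ 0) : Function.Injective (fun c : K => c • x) := by
  intro b c hbc
  by_contra hne
  have : (b - c) • x = 0 := by
    rw [sub_smul]
    exact sub_eq_zero.2 hbc
  rw [smul_eq_zero] at this
  rcases this with h | h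
  · exact hne (sub_eq_zero.1 h)
  · exact hx h

theorem card_orb {d : ℕ} {ζ : K} (hζ : IsPrimitiveRoot ζ d) {x : V} (hx : x ≠ 0) :
    (orb K d x).card = d := by
  unfold orb
  rw [card_image_of_injective _ (smul_injective hx), card_roots hζ]

theorem zero_notMem_orb {d : ℕ} (hd : 0 < d) {x : V} (hx : x ≠ 0) : (0 : V) ∉ orb K d x := by
  intro h
  obtain ⟨a, ha, h⟩ := (mem_orb hd).1 h
  exact smul_ne_zero (ne_zero_of_root hd ha) hx h

variable (K V) in
/-- The set of orbits of nonzero vectors. -/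
noncomputable def Om [Fintype V] (d : ℕ) : Finset (Finset V) := (univ.erase 0).image (orb K d)

variable [Fintype V]

theorem mem_Om {d : ℕ} {O : Finset V} : O ∈ Om K V d ↔ ∃ x : V, x ≠ 0 ∧ orb K d x = O := by
  unfold Om
  rw [mem_image]
  constructor
  · rintro ⟨x, hx, h⟩
    exact ⟨x, (mem_erase.1 hx).1, h⟩
  · rintro ⟨x, hx, h⟩
    exact ⟨x, mem_erase.2 ⟨hx, mem_univ _⟩, h⟩

theorem orb_eq_of_mem_Om {d : ℕ} (hd : 0 < d) {O : Finset V} (hO : O ∈ Om K V d) {y : V}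
    (hy : y ∈ O) : orb K d y = O := by
  obtain ⟨x, hx, rfl⟩ := mem_Om.1 hO
  exact orb_eq_of_mem hd hy

theorem ne_zero_of_mem_Om {d : ℕ} (hd : 0 < d) {O : Finset V} (hO : O ∈ Om K V d) {y : V}
    (hy : y ∈ O) : y ≠ 0 := by
  obtain ⟨x, hx, rfl⟩ := mem_Om.1 hO
  rintro rfl
  exact zero_notMem_orb hd hx hy

theorem disj_Om {d : ℕ} (hd : 0 < d) {O O' : Finset V} (hO : O ∈ Om K V d) (hO' : O' ∈ Om K V d)
    (hne : O ≠ O') : Disjoint O O' := by
  rw [Finset.disjoint_left]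
  intro y hy hy'
  exact hne ((orb_eq_of_mem_Om hd hO hy).symm.trans (orb_eq_of_mem_Om hd hO' hy'))

theorem card_of_mem_Om {d : ℕ} {ζ : K} (hζ : IsPrimitiveRoot ζ d) {O : Finset V}
    (hO : O ∈ Om K V d) : O.card = d := by
  obtain ⟨x, hx, rfl⟩ := mem_Om.1 hO
  exact card_orb hζ hx

theorem card_biUnion_Om {d : ℕ} (hd : 0 < d) {ζ : K} (hζ : IsPrimitiveRoot ζ d)
    {J : Finset (Finset V)} (hJ : J ⊆ Om K V d) : (J.biUnion id).card = J.card * d := by
  rw [card_biUnion]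
  · exact sum_const_nat (fun O hO => card_of_mem_Om hζ (hJ hO))
  · intro O hO O' hO' hne
    exact disj_Om hd (hJ hO) (hJ hO') hne

theorem card_Om {d : ℕ} (hd : 0 < d) {ζ : K} (hζ : IsPrimitiveRoot ζ d) :
    (Om K V d).card * d + 1 = Fintype.card V := by
  rw [← card_biUnion_Om hd hζ (Subset.refl _)]
  have : (Om K V d).biUnion id = univ.erase 0 := by
    ext x
    rw [mem_biUnion, mem_erase]
    constructor
    · rintro ⟨O, hO, hx⟩
      exact ⟨ne_zero_of_mem_Om hd hO hx, mem_univ _⟩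
    · rintro ⟨hx, -⟩
      exact ⟨orb K d x, mem_Om.2 ⟨x, hx, rfl⟩, self_mem_orb hd x⟩
  rw [this, card_erase_of_mem (mem_univ _), card_univ]
  have : 0 < Fintype.card V := Fintype.card_pos
  omega

/-- The set built from a family of orbits, with or without the origin. -/
def Tset (ε : ℕ) (J : Finset (Finset V)) : Finset V := (if ε = 1 then {0} else ∅) ∪ J.biUnion id

omit [Fintype V] in
theorem mem_Tset {ε : ℕ} {J : Finset (Finset V)} {x : V} :
    x ∈ Tset ε J ↔ (ε = 1 ∧ x = 0) ∨ ∃ O ∈ J, x ∈ O := by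
  unfold Tset
  rw [mem_union, mem_biUnion]
  split_ifs with h
  · simp [h]
  · simp [h]

theorem zero_mem_Tset {d : ℕ} (hd : 0 < d) {ε : ℕ} {J : Finset (Finset V)} (hJ : J ⊆ Om K V d) :
    (0 : V) ∈ Tset ε J ↔ ε = 1 := by
  rw [mem_Tset]
  constructor
  · rintro (h | ⟨O, hO, h⟩)
    · exact h.1
    · exact absurd rfl (ne_zero_of_mem_Om hd (hJ hO) h)
  · intro h
    exact Or.inl ⟨h, rfl⟩

theorem card_Tset {d : ℕ} (hd : 0 < d) {ζ : K} (hζ : IsPrimitiveRoot ζ d) {ε : ℕ} (hε : ε ≤ 1)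
    {J : Finset (Finset V)} (hJ : J ⊆ Om K V d) : (Tset ε J).card = d * J.card + ε := by
  unfold Tset
  rw [card_union_of_disjoint, card_biUnion_Om hd hζ hJ]
  · split_ifs with h
    · rw [card_singleton, h]; ring
    · rw [card_empty, show ε = 0 by omega]; ring
  · rw [Finset.disjoint_left]
    intro x hx hx'
    split_ifs at hx with h
    · rw [mem_singleton] at hx
      subst hx
      rw [mem_biUnion] at hx'
      obtain ⟨O, hO, h⟩ := hx'
      exact absurd rfl (ne_zero_of_mem_Om hd (hJ hO) h)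
    · simp at hx

theorem st_Tset {d : ℕ} (hd : 0 < d) {ε : ℕ} {J : Finset (Finset V)} (hJ : J ⊆ Om K V d) :
    St K d (Tset ε J) := by
  intro a ha x hx
  rw [mem_Tset] at hx ⊢
  rcases hx with ⟨h1, h2⟩ | ⟨O, hO, hx⟩
  · left
    rw [h2, smul_zero]
    exact ⟨h1, rfl⟩
  · right
    refine ⟨O, hO, ?_⟩
    rw [← orb_eq_of_mem_Om hd (hJ hO) hx]
    exact smul_mem_orb hd (self_mem_orb hd x) ha

theorem Tset_sdiff_card {d : ℕ} (hd : 0 < d) {ζ : K} (hζ : IsPrimitiveRoot ζ d) {ε : ℕ}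
    {J J' : Finset (Finset V)} (hJ : J ⊆ Om K V d) (h2 : (J \ J').card ≤ 2) :
    (Tset ε J \ Tset ε J').card ≤ 2 * d := by
  have hsub : Tset ε J \ Tset ε J' ⊆ (J \ J').biUnion id := by
    intro x hx
    rw [mem_sdiff, mem_Tset, mem_Tset, not_or] at hx
    obtain ⟨h1 | ⟨O, hO, hx1⟩, h3, h4⟩ := hx
    · exact absurd h1 h3
    · rw [mem_biUnion]
      refine ⟨O, mem_sdiff.2 ⟨hO, fun h => h4 ⟨O, h, hx1⟩⟩, hx1⟩
  calc _ ≤ ((J \ J').biUnion id).card := card_le_card hsub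
    _ = (J \ J').card * d := card_biUnion_Om hd hζ (sdiff_subset.trans hJ)
    _ ≤ 2 * d := Nat.mul_le_mul_right _ h2

theorem Tset_subset {d : ℕ} (hd : 0 < d) {ε : ℕ}
    {J J' : Finset (Finset V)} (hJ : J ⊆ Om K V d) (hJ' : J' ⊆ Om K V d)
    (h : Tset ε J \ Tset ε J' = ∅) : J ⊆ J' := by
  rw [sdiff_eq_empty_iff_subset] at h
  intro O hO
  obtain ⟨x, hx, rfl⟩ := mem_Om.1 (hJ hO)
  have h1 : x ∈ Tset ε J := mem_Tset.2 (Or.inr ⟨_, hO, self_mem_orb hd x⟩)
  have h2 := h h1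
  rw [mem_Tset] at h2
  rcases h2 with h2 | ⟨O', hO', hx'⟩
  · exact absurd h2.2 hx
  · rw [orb_eq_of_mem_Om hd (hJ' hO') hx']
    exact hO'

end Orbits

end Q155.AGL
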