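import Pool.Agent.Q155.AGL.Core

set_option autoImplicit false

namespace Q155.AGL

open Finset

section

variable {K V : Type*} [Field K] [AddCommGroup V] [Module K V]

theorem good_one_of {T : Finset V}
    (h : ∀ a : K, a ≠ 0 → ∀ b : V, Inv a b T → a = 1 ∧ b = 0) : Good K 1 T := by
  intro a ha b
  constructor
  · intro hi
    obtain ⟨h1, h2⟩ := h a ha b hi
    exact ⟨by rw [h1, pow_one], h2⟩
  · rintro ⟨h1, rfl⟩
    rw [pow_one] at h1
    subst h1
    rw [inv_zero_iff]
    intro x hx
    rwa [one_smul]

theorem exists_sum_ne_zero [Fintype V] (t : ℕ) (h1 : 1 ≤ t) (h2 : t < Fintype.card V) :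
    ∃ T : Finset V, T.card = t ∧ ∑ x ∈ T, x ≠ 0 := by
  classical
  obtain ⟨T₀, -, hT₀⟩ := Finset.exists_subset_card_eq (s := (univ : Finset V)) (n := t)
    (by rw [card_univ]; omega)
  by_cases hs : ∑ x ∈ T₀, x ≠ 0
  · exact ⟨T₀, hT₀, hs⟩
  push Not at hs
  obtain ⟨x, hx⟩ := card_pos.1 (show 0 < T₀.card by omega)
  obtain ⟨y, hy⟩ : ∃ y, y ∉ T₀ := by
    by_contra hall
    push Not at hall
    have : T₀ = univ := eq_univ_iff_forall.2 hall
    rw [this, card_univ] at hT₀
    omega
  have hy' : y ∉ T₀.erase x := fun h => hy (mem_of_mem_erase h)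
  refine ⟨insert y (T₀.erase x), ?_, ?_⟩
  · rw [card_insert_of_notMem hy', card_erase_of_mem hx]
    omega
  · rw [sum_insert hy']
    have h3 := Finset.add_sum_erase T₀ (fun x => x) hx
    rw [hs] at h3
    intro h4
    apply hy
    have : y = x := by
      have e : y = -∑ x ∈ T₀.erase x, x := eq_neg_of_add_eq_zero_left h4
      rw [e]
      exact (eq_neg_of_add_eq_zero_left h3).symm
    rw [this]
    exact hx

/-- If `T` is periodic, its sum is a multiple of the period. -/
theorem period_sum (k : Type*) [Field k] [Module k V] {T : Finset V} {b : V} (hb : b ≠ 0)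
    (hT : ∀ x ∈ T, x + b ∈ T) (ht : T.card • b = 0) :
    ∃ g : V →ₗ[k] k, g b = 1 ∧ ∑ x ∈ T, x = -(g (∑ x ∈ T, x) • b) := by
  obtain ⟨g', hg'⟩ : ∃ g' : V →ₗ[k] k, g' b ≠ 0 := by
    by_contra hcon
    push Not at hcon
    exact hb ((Module.forall_dual_apply_eq_zero_iff k b).1 hcon)
  set g : V →ₗ[k] k := (g' b)⁻¹ • g' with hg
  have hgb : g b = 1 := by
    rw [hg, LinearMap.smul_apply, smul_eq_mul, inv_mul_cancel₀ hg']
  refine ⟨g, hgb, ?_⟩
  have hI : Inv (1 : k) b T := inv_one_iff.2 hT
  have h := hI.sum one_ne_zero (fun x => g x • x)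
  simp only [one_smul, map_add, hgb] at h
  have e : ∀ x ∈ T, (g x + 1) • (x + b) = g x • x + (g x • b + x + b) := by
    intro x _
    rw [add_smul, one_smul, smul_add]
    abel
  rw [sum_congr rfl e, sum_add_distrib, add_eq_left, sum_add_distrib, sum_add_distrib, sum_const,
    ht, add_zero, ← sum_smul, ← map_sum] at h
  exact eq_neg_of_add_eq_zero_right h

theorem exists_good_of_dvd [Fintype V] (h2 : (2 : K) ≠ 0) (t : ℕ) (ht : (t : K) = 0)
    (h1 : 1 ≤ t) (hN : t < Fintype.card V) : ∃ T : Finset V, T.card = t ∧ Good K 1 T := by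
  obtain ⟨T, hTc, hs⟩ := exists_sum_ne_zero t h1 hN
  have ht' : ∀ v : V, T.card • v = 0 := by
    intro v
    rw [hTc, ← Nat.cast_smul_eq_nsmul K, ht, zero_smul]
  refine ⟨T, hTc, good_one_of ?_⟩
  intro a ha b hi
  have h3 := hi.sum_id ha
  rw [ht', add_zero] at h3
  have ha1 : a = 1 := by
    have h4 : (a - 1) • ∑ x ∈ T, x = 0 := by rw [sub_smul, one_smul, h3, sub_self]
    rw [smul_eq_zero] at h4
    rcases h4 with h4 | h4
    · exact sub_eq_zero.1 h4
    · exact absurd h4 hs
  refine ⟨ha1, ?_⟩
  by_contra hb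
  subst ha1
  rw [inv_one_iff] at hi
  obtain ⟨g, hg1, hg2⟩ := period_sum K hb hi (ht' b)
  have h5 : g (∑ x ∈ T, x) = -g (∑ x ∈ T, x) := by
    conv_lhs => rw [hg2]
    rw [map_neg, map_smul, hg1, smul_eq_mul, mul_one]
  have h6 : g (∑ x ∈ T, x) = 0 := by
    have : 2 * g (∑ x ∈ T, x) = 0 := by linear_combination h5
    rcases mul_eq_zero.1 this with h | h
    · exact absurd h h2
    · exact h
  rw [h6, zero_smul, neg_zero] at hg2
  exact hs hg2

/-- In characteristic two the sum of an even periodic set is zero or the period. -/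
theorem period_sum_two (h2 : (2 : K) = 0) {T : Finset V} {b : V} (hb : b ≠ 0)
    (hT : ∀ x ∈ T, x + b ∈ T) (ht : Even T.card) :
    ∑ x ∈ T, x = 0 ∨ ∑ x ∈ T, x = b := by
  have hV2 : ∀ v : V, 2 • v = 0 := by
    intro v
    rw [← Nat.cast_smul_eq_nsmul K, Nat.cast_ofNat, h2, zero_smul]
  let : Module (ZMod 2) V := AddCommGroup.zmodModule hV2
  have ht' : T.card • b = 0 := by
    obtain ⟨m, hm⟩ := ht
    rw [hm, ← two_mul, mul_nsmul, hV2, nsmul_zero]
  obtain ⟨g, hg1, hg2⟩ := period_sum (ZMod 2) hb hT ht'
  have hz : ∀ z : ZMod 2, z = 0 ∨ z = 1 := by decide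
  rcases hz (g (∑ x ∈ T, x)) with h | h
  · left
    rw [h, zero_smul, neg_zero] at hg2
    exact hg2
  · right
    rw [h, one_smul] at hg2
    rw [hg2]
    have := hV2 b
    rw [two_nsmul] at this
    exact (eq_neg_of_add_eq_zero_left this).symm

theorem exists_good_char_two_even [Fintype V] (h2 : (2 : K) = 0) (t : ℕ) (ht : Even t)
    (h4 : 4 ≤ t) (hN : 2 * t ≤ Fintype.card V) : ∃ T : Finset V, T.card = t ∧ Good K 1 T := by
  classical
  have hV2 : ∀ v : V, v + v = 0 := by
    intro v
    have h : (2 : K) • v = 0 := by rw [h2, zero_smul]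
    rwa [two_smul] at h
  have suff : ∀ T : Finset V, T.card = t → ∑ x ∈ T, x ≠ 0 →
      (∃ u ∈ T, u + ∑ x ∈ T, x ∉ T) → Good K 1 T := by
    intro T hTc hs hu
    apply good_one_of
    intro a ha b hi
    have h3 := hi.sum_id ha
    have h4 : T.card • b = 0 := by
      obtain ⟨m, hm⟩ := ht
      rw [hTc, hm, add_nsmul, ← nsmul_add, hV2, nsmul_zero]
    rw [h4, add_zero] at h3
    have ha1 : a = 1 := by
      have h4 : (a - 1) • ∑ x ∈ T, x = 0 := by rw [sub_smul, one_smul, h3, sub_self]
      rw [smul_eq_zero] at h4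
      rcases h4 with h4 | h4
      · exact sub_eq_zero.1 h4
      · exact absurd h4 hs
    refine ⟨ha1, ?_⟩
    by_contra hb
    subst ha1
    rw [inv_one_iff] at hi
    rcases period_sum_two h2 hb hi (hTc ▸ ht) with h | h
    · exact hs h
    · obtain ⟨u, hu, hu'⟩ := hu
      rw [h] at hu'
      exact hu' (hi u hu)
  obtain ⟨T, hTc, hs⟩ := exists_sum_ne_zero (V := V) t (by omega) (by omega)
  by_cases hper : ∃ u ∈ T, u + ∑ x ∈ T, x ∉ T
  · exact ⟨T, hTc, suff T hTc hs hper⟩
  push Not at hper
  set s := ∑ x ∈ T, x with hsdef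
  obtain ⟨x, hx⟩ := card_pos.1 (show 0 < T.card by omega)
  obtain ⟨u, hu⟩ : ((T.erase x).erase (x + s)).Nonempty := by
    apply card_pos.1
    have h1 := Finset.card_erase_of_mem hx
    have h3 := Finset.pred_card_le_card_erase (s := T.erase x) (a := x + s)
    omega
  rw [mem_erase, mem_erase] at hu
  obtain ⟨hu1, hu2, hu3⟩ := hu
  obtain ⟨y, hy, hy'⟩ : ∃ y, y ∉ T ∧ u + (s + x + y) ∉ T.erase x := by
    by_contra hcon
    push Not at hcon
    have h1 : (Tᶜ).card ≤ (T.erase x).card := by
      apply Finset.card_le_card_of_injOn (fun y => u + (s + x + y))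
      · intro y hy
        rw [mem_coe, mem_compl] at hy
        exact hcon y hy
      · intro y _ z _ hyz
        simpa using hyz
    rw [card_compl, card_erase_of_mem hx, hTc] at h1
    omega
  have hyx : y ∉ T.erase x := fun h => hy (mem_of_mem_erase h)
  set T' := insert y (T.erase x) with hT'
  have hsum : ∑ z ∈ T', z = s + x + y := by
    rw [hT', sum_insert hyx]
    have h3 := Finset.add_sum_erase T (fun x => x) hx
    have h5 : ∑ z ∈ T.erase x, z = s + x := by
      have : s + x = x + ∑ z ∈ T.erase x, z + x := by rw [h3]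
      rw [this, add_comm x, add_assoc, hV2, add_zero]
    rw [h5]
    abel
  refine ⟨T', ?_, suff T' ?_ ?_ ⟨u, ?_, ?_⟩⟩
  · rw [hT', card_insert_of_notMem hyx, card_erase_of_mem hx]
    omega
  · rw [hT', card_insert_of_notMem hyx, card_erase_of_mem hx]
    omega
  · rw [hsum]
    intro h
    apply hy
    have h5 : y = x + s := by
      have h6 : s + x + y + y = y := by rw [h, zero_add]
      rw [add_assoc, hV2, add_zero] at h6
      rw [← h6, add_comm]
    rw [h5]
    exact hper x hx
  · rw [hT', mem_insert, mem_erase]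
    right
    exact ⟨hu2, hu3⟩
  · rw [hsum, hT', mem_insert, not_or]
    refine ⟨?_, hy'⟩
    intro h
    apply hu1
    have h6 : u + (s + x) + y = 0 + y := by rw [zero_add, add_assoc]; exact h
    have h7 : u + (s + x) = 0 := add_right_cancel h6
    have h8 : u + (s + x) + (s + x) = x + s := by rw [h7, zero_add, add_comm]
    rwa [add_assoc, hV2, add_zero] at h8

/-- Symmetric subsets of every even size. -/
theorem exists_symm (U : Finset V) (hU : ∀ v ∈ U, -v ∈ U) (hne : ∀ v ∈ U, v ≠ -v) (r : ℕ)
    (hr : 2 * r ≤ U.card) : ∃ S ⊆ U, (∀ v ∈ S, -v ∈ S) ∧ S.card = 2 * r := by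
  classical
  induction r with
  | zero => exact ⟨∅, by simp, by simp, by simp⟩
  | succ r ih =>
    obtain ⟨S, hSU, hS, hc⟩ := ih (by omega)
    obtain ⟨u, hu, huS⟩ : ∃ u ∈ U, u ∉ S := by
      by_contra hcon
      push Not at hcon
      have := card_le_card (show U ⊆ S from hcon)
      omega
    have hnu : -u ∉ S := fun h => huS (by simpa using hS _ h)
    have hne' := hne u hu
    refine ⟨insert u (insert (-u) S), ?_, ?_, ?_⟩
    · intro v hv
      rw [mem_insert, mem_insert] at hv
      rcases hv with rfl | rfl | hv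
      · exact hu
      · exact hU _ hu
      · exact hSU hv
    · intro v hv
      rw [mem_insert, mem_insert] at hv ⊢
      rcases hv with rfl | rfl | hv
      · right; left; rfl
      · left; simp
      · right; right; exact hS _ hv
    · rw [card_insert_of_notMem, card_insert_of_notMem hnu, hc]
      · ring
      · rw [mem_insert, not_or]
        exact ⟨hne', huS⟩

theorem exists_good_odd_char [Fintype V] [Nontrivial V] (h2 : (2 : K) ≠ 0) (t : ℕ) (ht : (t : K) ≠ 0)
    (h3 : 3 ≤ t) (h8 : 8 ≤ Fintype.card V) (hN : 2 * t ≤ Fintype.card V) :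
    ∃ T : Finset V, T.card = t ∧ Good K 1 T := by
  classical
  obtain ⟨x, hx⟩ := exists_ne (0 : V)
  have h2' : ∀ v : V, v + v = 0 → v = 0 := by
    intro v hv
    rw [← two_smul K, smul_eq_zero] at hv
    rcases hv with h | h
    · exact absurd h h2
    · exact h
  have hneg : ∀ v : V, v = -v → v = 0 := by
    intro v hv
    apply h2'
    nth_rewrite 1 [hv]
    rw [neg_add_cancel]
  -- the choice of y
  obtain ⟨y, hy⟩ : ∃ y : V, y ∉ ({0, -x, -x - x, (-(2 : K)⁻¹) • x} : Finset V) ∪
      (Polynomial.nthRoots 3 (1 : K)).toFinset.image (fun a => a • x) := by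
    by_contra hcon
    push Not at hcon
    have h4 : (univ : Finset V) ⊆ ({0, -x, -x - x, (-(2 : K)⁻¹) • x} : Finset V) ∪
      (Polynomial.nthRoots 3 (1 : K)).toFinset.image (fun a => a • x) := fun v _ => hcon v
    have h5 := card_le_card h4
    have h6 := card_union_le ({0, -x, -x - x, (-(2 : K)⁻¹) • x} : Finset V)
      ((Polynomial.nthRoots 3 (1 : K)).toFinset.image (fun a => a • x))
    have h7 : ({0, -x, -x - x, (-(2 : K)⁻¹) • x} : Finset V).card ≤ 4 := card_le_four
    have h9 : ((Polynomial.nthRoots 3 (1 : K)).toFinset.image (fun a => a • x)).card ≤ 3 :=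
      (card_image_le).trans ((Multiset.toFinset_card_le _).trans (Polynomial.card_nthRoots 3 1))
    rw [card_univ] at h5
    omega
  rw [mem_union, not_or] at hy
  obtain ⟨hy1, hy2⟩ := hy
  simp only [mem_insert, mem_singleton, not_or] at hy1
  obtain ⟨hy0, hyx, hyxx, hyh⟩ := hy1
  have hcube : ∀ a : K, a ^ 3 = 1 → y ≠ a • x := by
    intro a ha h
    apply hy2
    rw [mem_image]
    refine ⟨a, ?_, h.symm⟩
    rw [Multiset.mem_toFinset, Polynomial.mem_nthRoots (by norm_num)]
    exact ha
  set z : V := -x - y with hz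
  have hz0 : z ≠ 0 := by
    intro h
    apply hyx
    linear_combination (norm := module) (-1 : K) • h
  have hxy : y ≠ x := by
    intro h
    exact hcube 1 (by norm_num) (by rw [one_smul, h])
  have hzx : z ≠ x := by
    intro h
    apply hyxx
    linear_combination (norm := module) (-1 : K) • h
  have hzy : z ≠ y := by
    intro h
    apply hyh
    have h4 : (2 : K) • y = -x := by
      linear_combination (norm := module) (-1 : K) • h
    have h5 : (2 : K)⁻¹ • ((2 : K) • y) = y := inv_smul_smul₀ h2 y
    rw [← h5, h4, smul_neg, neg_smul]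
  have hzxn : z ≠ -x := by
    intro h
    apply hy0
    linear_combination (norm := module) (-1 : K) • h
  have hzyn : z ≠ -y := by
    intro h
    apply hx
    linear_combination (norm := module) (-1 : K) • h
  have hxx : x ≠ -x := fun h => hx (hneg x h)
  have hyy : y ≠ -y := fun h => hy0 (hneg y h)
  have hzz : z ≠ -z := fun h => hz0 (hneg z h)
  set W : Finset V := {0, x, y, z, -x, -y, -z} with hW
  have hWc : W.card ≤ 7 := (card_insert_le _ _).trans (Nat.succ_le_succ card_le_six)
  obtain ⟨r, hr⟩ : ∃ r, t = 2 * r + 3 ∨ t = 2 * r + 4 := by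
    rcases Nat.even_or_odd t with ⟨m, hm⟩ | ⟨m, hm⟩
    · exact ⟨m - 2, by omega⟩
    · exact ⟨m - 1, by omega⟩
  obtain ⟨S, hSU, hS, hSc⟩ := exists_symm Wᶜ (by
      intro v hv
      rw [mem_compl] at hv ⊢
      intro h
      apply hv
      simp only [hW, mem_insert, mem_singleton] at h ⊢
      rcases h with h | h | h | h | h | h | h
      · left; simpa using h
      · right; right; right; right; left; rw [← h, neg_neg]
      · right; right; right; right; right; left; rw [← h, neg_neg]
      · right; right; right; right; right; right; rw [← h, neg_neg]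
      · right; left; exact neg_injective h
      · right; right; left; exact neg_injective h
      · right; right; right; left; exact neg_injective h) (by
      intro v hv h
      rw [mem_compl] at hv
      apply hv
      rw [hneg v h, hW]
      simp) r (by
      rw [card_compl]
      omega)
  have hS0 : ∀ w ∈ W, w ∉ S := fun w hw h => (mem_compl.1 (hSU h)) hw
  set E : Finset V := if t = 2 * r + 4 then {0} else ∅ with hE
  have hEc : E.card + 2 * r + 3 = t := by
    rw [hE]
    split_ifs with h
    · rw [card_singleton]; omega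
    · rw [card_empty]; omega
  have hE0 : ∀ v ∈ E, v = 0 := by
    intro v hv
    rw [hE] at hv
    split_ifs at hv with h
    · exact mem_singleton.1 hv
    · simp at hv
  have hmW0 : (0 : V) ∈ W := by simp [hW]
  have hmWx : x ∈ W := by simp [hW]
  have hmWy : y ∈ W := by simp [hW]
  have hmWz : z ∈ W := by simp [hW]
  have hmWnx : -x ∈ W := by simp [hW]
  have hmWny : -y ∈ W := by simp [hW]
  have hmWnz : -z ∈ W := by simp [hW]
  have hES : Disjoint E S := by
    rw [Finset.disjoint_left]
    intro v hv hvS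
    rw [hE0 v hv] at hvS
    exact hS0 0 hmW0 hvS
  have hzm : z ∉ E ∪ S := by
    rw [mem_union, not_or]
    exact ⟨fun h => hz0 (hE0 z h), hS0 z hmWz⟩
  have hym : y ∉ insert z (E ∪ S) := by
    rw [mem_insert, mem_union, not_or, not_or]
    exact ⟨hzy.symm, fun h => hy0 (hE0 y h), hS0 y hmWy⟩
  have hxm : x ∉ insert y (insert z (E ∪ S)) := by
    rw [mem_insert, mem_insert, mem_union, not_or, not_or, not_or]
    exact ⟨hxy.symm, hzx.symm, fun h => hx (hE0 x h), hS0 x hmWx⟩
  set T : Finset V := insert x (insert y (insert z (E ∪ S))) with hT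
  have hTc : T.card = t := by
    rw [hT, card_insert_of_notMem hxm, card_insert_of_notMem hym, card_insert_of_notMem hzm,
      card_union_of_disjoint hES, hSc]
    omega
  have hTs : ∑ v ∈ T, v = 0 := by
    rw [hT, sum_insert hxm, sum_insert hym, sum_insert hzm, sum_union hES]
    have e1 : ∑ v ∈ E, v = 0 := sum_eq_zero hE0
    have e2 : ∑ v ∈ S, v = 0 := by
      apply hneg
      rw [← sum_neg_distrib]
      refine Finset.sum_bij' (fun v _ => -v) (fun v _ => -v) hS hS ?_ ?_ ?_
      · intro v _; exact neg_neg v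
      · intro v _; exact neg_neg v
      · intro v _; exact (neg_neg v).symm
    rw [e1, e2, hz]
    abel
  have hmem : ∀ v, v ∈ T ↔ v = x ∨ v = y ∨ v = z ∨ v ∈ E ∨ v ∈ S := by
    intro v
    rw [hT, mem_insert, mem_insert, mem_insert, mem_union]
  -- the elements whose negative is missing
  have hA : ∀ v, v ∈ T ∧ -v ∉ T ↔ v = x ∨ v = y ∨ v = z := by
    intro v
    rw [hmem, hmem]
    constructor
    · rintro ⟨h1 | h1 | h1 | h1 | h1, h5⟩
      · left; exact h1
      · right; left; exact h1
      · right; right; exact h1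
      · exfalso
        apply h5
        right; right; right; left
        rw [hE0 v h1, neg_zero]
        rwa [hE0 v h1] at h1
      · exfalso
        apply h5
        right; right; right; right
        exact hS v h1
    · intro h
      have hn : ∀ w, w = x ∨ w = y ∨ w = z → -w ∉ S ∧ -w ≠ 0 := by
        intro w hw
        rcases hw with rfl | rfl | rfl
        · exact ⟨hS0 _ hmWnx, by simpa using hx⟩
        · exact ⟨hS0 _ hmWny, by simpa using hy0⟩
        · exact ⟨hS0 _ hmWnz, by simpa using hz0⟩
      have hn' := hn v h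
      refine ⟨h.elim Or.inl (fun h => h.elim (fun h => Or.inr (Or.inl h))
        (fun h => Or.inr (Or.inr (Or.inl h)))), ?_⟩
      rintro (h1 | h1 | h1 | h1 | h1)
      · rcases h with rfl | rfl | rfl
        · exact hxx h1.symm
        · exact hyx (neg_eq_iff_eq_neg.1 h1)
        · exact hzxn (neg_eq_iff_eq_neg.1 h1)
      · rcases h with rfl | rfl | rfl
        · exact hyx h1.symm
        · exact hyy h1.symm
        · exact hzyn (neg_eq_iff_eq_neg.1 h1)
      · rcases h with rfl | rfl | rfl
        · exact hzxn h1.symm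
        · exact hzyn h1.symm
        · exact hzz h1.symm
      · exact hn'.2 (hE0 _ h1)
      · exact hn'.1 h1
  refine ⟨T, hTc, good_one_of ?_⟩
  intro a ha b hi
  have hb : b = 0 := by
    have h4 := hi.sum_id ha
    rw [hTs, smul_zero, zero_add, hTc, ← Nat.cast_smul_eq_nsmul K, smul_eq_zero] at h4
    rcases h4 with h4 | h4
    · exact absurd h4 ht
    · exact h4
  refine ⟨?_, hb⟩
  subst hb
  have hstep : ∀ v, (v = x ∨ v = y ∨ v = z) → (a • v = x ∨ a • v = y ∨ a • v = z) := by
    intro v hv
    rw [← hA] at hv ⊢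
    refine ⟨inv_zero_iff.1 hi v hv.1, ?_⟩
    intro h
    obtain ⟨w, hw, hw'⟩ := hi.surj ha _ h
    rw [add_zero, ← smul_neg] at hw'
    have := smul_right_injective V ha hw'
    apply hv.2
    rw [← this]
    exact hw
  have hfix : ∀ v : V, v ≠ 0 → ∀ r : K, r • v = v → r = 1 := by
    intro v hv r hr
    have : (r - 1) • v = 0 := by rw [sub_smul, one_smul, hr, sub_self]
    rw [smul_eq_zero] at this
    rcases this with h | h
    · exact sub_eq_zero.1 h
    · exact absurd h hv
  have hinj : ∀ v w : V, a • v = a • w → v = w := fun v w h => smul_right_injective V ha h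
  have hsq : ∀ v : V, v ≠ 0 → a • a • v = v → a = 1 ∨ a = -1 := by
    intro v hv h
    rw [smul_smul] at h
    have := hfix v hv _ h
    exact mul_self_eq_one_iff.1 this
  have hcb : ∀ v : V, v ≠ 0 → a • a • a • v = v → a ^ 3 = 1 := by
    intro v hv h
    rw [smul_smul, smul_smul] at h
    have := hfix v hv _ h
    rw [← this]
    ring
  rcases hstep x (Or.inl rfl) with h | h | h
  · exact hfix x hx a h
  · rcases hstep y (Or.inr (Or.inl rfl)) with h' | h' | h'
    · rcases hsq x hx (by rw [h, h']) with h'' | h''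
      · exact h''
      · exfalso
        rw [h'', neg_one_smul] at h
        exact hyx h.symm
    · exact hfix y hy0 a h'
    · rcases hstep z (Or.inr (Or.inr rfl)) with h'' | h'' | h''
      · exact absurd h.symm (hcube a (hcb x hx (by rw [h, h', h''])))
      · exact absurd (hinj z x (h''.trans h.symm)) hzx
      · exact hfix z hz0 a h''
  · rcases hstep z (Or.inr (Or.inr rfl)) with h' | h' | h'
    · rcases hsq x hx (by rw [h, h']) with h'' | h''
      · exact h''
      · exfalso
        rw [h'', neg_one_smul] at h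
        exact hzxn h.symm
    · rcases hstep y (Or.inr (Or.inl rfl)) with h'' | h'' | h''
      · have h3 := hcb x hx (by rw [h, h', h''])
        exfalso
        apply hcube (a * a) (by
          have : (a * a) ^ 3 = (a ^ 3) ^ 2 := by ring
          rw [this, h3, one_pow])
        rw [← smul_smul, h, h']
      · exact hfix y hy0 a h''
      · exact absurd (hinj y x (h''.trans h.symm)) hxy
    · exact hfix z hz0 a h'

end

end Q155.AGL
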