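import Pool.Agent.Q155.AGL.Core

set_option autoImplicit false

namespace Q155.AGL

open Finset

section Groups

variable {K V : Type*} [Field K] [AddCommGroup V] [Module K V]

/-- The group of periods of a finite set. -/
def Per (T : Finset V) : AddSubgroup V where
  carrier := {g | ∀ x ∈ T, x + g ∈ T}
  zero_mem' := by intro x hx; simpa using hx
  add_mem' := by
    intro a b ha hb x hx
    rw [← add_assoc]
    exact hb _ (ha _ hx)
  neg_mem' := by
    classical
    intro a ha x hx
    have himg : T.image (fun x => x + a) = T := by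
      apply Finset.eq_of_subset_of_card_le
      · intro y hy
        rw [mem_image] at hy
        obtain ⟨x, hx, rfl⟩ := hy
        exact ha x hx
      · rw [card_image_of_injective _ (add_left_injective a)]
    rw [← himg, mem_image] at hx
    obtain ⟨y, hy, rfl⟩ := hx
    simpa using hy

theorem mem_Per {T : Finset V} {g : V} : g ∈ Per T ↔ ∀ x ∈ T, x + g ∈ T := Iff.rfl

/-- The group of homotheties preserving a finite set. -/
def hom (K : Type*) {V : Type*} [Field K] [AddCommGroup V] [Module K V] (T : Finset V) :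
    Subgroup Kˣ where
  carrier := {u | ∀ x ∈ T, (u : K) • x ∈ T}
  one_mem' := by intro x hx; simpa using hx
  mul_mem' := by
    intro a b ha hb x hx
    rw [Units.val_mul, mul_smul]
    exact ha _ (hb _ hx)
  inv_mem' := by
    intro a ha x hx
    obtain ⟨y, hy, hyx⟩ := Inv.surj (a := (a : K)) (b := (0 : V)) a.ne_zero
      (inv_zero_iff.2 ha) x hx
    rw [add_zero] at hyx
    rw [← hyx, smul_smul, Units.inv_mul, one_smul]
    exact hy

theorem mem_hom {T : Finset V} {u : Kˣ} : u ∈ hom K T ↔ ∀ x ∈ T, (u : K) • x ∈ T := Iff.rfl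

/-- Stability under the `d`-th roots of unity. -/
def St (K : Type*) {V : Type*} [Field K] [AddCommGroup V] [Module K V] (d : ℕ) (T : Finset V) :
    Prop := ∀ a : K, a ^ d = 1 → ∀ x ∈ T, a • x ∈ T

theorem smul_mem_Per {d : ℕ} (hd : 0 < d) {T : Finset V} (hT : St K d T) {a : K} (ha : a ^ d = 1)
    {g : V} (hg : g ∈ Per T) : a • g ∈ Per T := by
  intro x hx
  have ha0 : a ≠ 0 := by
    rintro rfl
    rw [zero_pow (by omega)] at ha
    exact zero_ne_one ha
  have h1 : a⁻¹ • x ∈ T := hT _ (by rw [inv_pow, ha, inv_one]) x hx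
  have h2 := hT a ha _ (hg _ h1)
  rwa [smul_add, smul_inv_smul₀ ha0] at h2

theorem card_roots {d : ℕ} {ζ : K} (hζ : IsPrimitiveRoot ζ d) :
    (Polynomial.nthRootsFinset d (1 : K)).card = d := hζ.card_nthRootsFinset

/-- A stable periodic set that is not contained in a stable nontrivial group of periods is large. -/
theorem card_ge [Finite V] {d : ℕ} (hd : 0 < d) {ζ : K} (hζ : IsPrimitiveRoot ζ d)
    (G : AddSubgroup V) (hG : ∀ a : K, a ^ d = 1 → ∀ g ∈ G, a • g ∈ G) {v : V} (hv : v ∈ G)
    (hv0 : v ≠ 0) {D : Finset V} (hD : St K d D) (hDG : ∀ x ∈ D, ∀ g ∈ G, x + g ∈ D) {x : V}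
    (hx : x ∈ D) (hxG : x ∉ G) : d * (d + 1) ≤ D.card := by
  classical
  have := Fintype.ofFinite V
  set Gf : Finset V := univ.filter (· ∈ G) with hGf
  have hmem : ∀ g, g ∈ Gf ↔ g ∈ G := by intro g; simp [hGf]
  set M : Finset K := Polynomial.nthRootsFinset d (1 : K) with hM
  have hMm : ∀ a, a ∈ M ↔ a ^ d = 1 := by
    intro a
    rw [hM, Polynomial.mem_nthRootsFinset hd]
  have hMc : M.card = d := card_roots hζ
  have h1 : d + 1 ≤ Gf.card := by
    have h2 : insert 0 (M.image (fun a => a • v)) ⊆ Gf := by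
      intro g hg
      rw [mem_insert, mem_image] at hg
      rw [hmem]
      rcases hg with rfl | ⟨a, ha, rfl⟩
      · exact G.zero_mem
      · exact hG a ((hMm a).1 ha) v hv
    have h3 := card_le_card h2
    rw [card_insert_of_notMem, card_image_of_injective, hMc] at h3
    · exact h3
    · intro a b hab
      by_contra hne
      have : (a - b) • v = 0 := by
        rw [sub_smul]
        exact sub_eq_zero.2 hab
      rw [smul_eq_zero] at this
      rcases this with h | h
      · exact hne (sub_eq_zero.1 h)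
      · exact hv0 h
    · rw [mem_image]
      rintro ⟨a, ha, h⟩
      rw [smul_eq_zero] at h
      rcases h with h | h
      · rw [hMm, h, zero_pow (by omega)] at ha
        exact zero_ne_one ha
      · exact hv0 h
  calc d * (d + 1) ≤ d * Gf.card := Nat.mul_le_mul_left _ h1
    _ = (M ×ˢ Gf).card := by rw [card_product, hMc]
    _ ≤ D.card := by
      apply Finset.card_le_card_of_injOn (fun q => q.1 • x + q.2)
      · intro q hq
        rw [mem_coe, mem_product, hMm, hmem] at hq
        exact hDG _ (hD _ hq.1 x hx) _ hq.2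
      · intro q hq r hr hqr
        rw [mem_coe, mem_product, hMm, hmem] at hq hr
        simp only at hqr
        have h4 : (q.1 - r.1) • x = r.2 - q.2 := by
          rw [sub_smul, sub_eq_sub_iff_add_eq_add, add_comm, add_comm r.2]
          rw [add_comm q.2, hqr]
        by_cases hne : q.1 = r.1
        · rw [hne, sub_self, zero_smul] at h4
          exact Prod.ext hne (sub_eq_zero.1 h4.symm).symm
        exfalso
        apply hxG
        have hne' : q.1 - r.1 ≠ 0 := sub_ne_zero.2 hne
        have hmaps : ∀ g ∈ Gf, (q.1 - r.1) • g + (0 : V) ∈ Gf := by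
          intro g hg
          rw [hmem] at hg ⊢
          rw [add_zero, sub_smul]
          exact G.sub_mem (hG _ hq.1 g hg) (hG _ hr.1 g hg)
        have h5 : (q.1 - r.1) • x ∈ Gf := by
          rw [hmem, h4]
          exact G.sub_mem hr.2 hq.2
        obtain ⟨g, hg, hgx⟩ := Inv.surj hne' hmaps _ h5
        rw [add_zero] at hgx
        have := smul_right_injective V hne' hgx
        rw [← this, ← hmem]
        exact hg

/-- For stable sets with a common nonzero period, a small difference avoiding `0` is empty. -/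
theorem diff_empty [Finite V] {d : ℕ} (hd : 2 ≤ d) {ζ : K} (hζ : IsPrimitiveRoot ζ d)
    [DecidableEq V] {T T' : Finset V} (hT : St K d T) (hT' : St K d T') {v : V} (hv0 : v ≠ 0)
    (hv : v ∈ Per T) (hv' : v ∈ Per T') (h0 : (0 : V) ∉ T \ T') (hc : (T \ T').card ≤ 2 * d) :
    T \ T' = ∅ := by
  by_contra hne
  obtain ⟨x, hx⟩ := Finset.nonempty_iff_ne_empty.2 hne
  have hG : ∀ a : K, a ^ d = 1 → ∀ g ∈ Per T ⊓ Per T', a • g ∈ Per T ⊓ Per T' := by
    intro a ha g hg
    rw [AddSubgroup.mem_inf] at hg ⊢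
    exact ⟨smul_mem_Per (by omega) hT ha hg.1, smul_mem_Per (by omega) hT' ha hg.2⟩
  have hDG : ∀ x ∈ T \ T', ∀ g ∈ Per T ⊓ Per T', x + g ∈ T \ T' := by
    intro x hx g hg
    rw [AddSubgroup.mem_inf] at hg
    rw [mem_sdiff] at hx ⊢
    refine ⟨hg.1 x hx.1, fun h => hx.2 ?_⟩
    have := (Per T').neg_mem hg.2 _ h
    simpa using this
  have hD : St K d (T \ T') := by
    intro a ha y hy
    rw [mem_sdiff] at hy ⊢
    have ha0 : a ≠ 0 := by
      rintro rfl
      rw [zero_pow (by omega)] at ha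
      exact zero_ne_one ha
    refine ⟨hT a ha y hy.1, fun h => hy.2 ?_⟩
    have := hT' a⁻¹ (by rw [inv_pow, ha, inv_one]) _ h
    rwa [inv_smul_smul₀ ha0] at this
  by_cases hxG : x ∈ Per T ⊓ Per T'
  · apply h0
    have := hDG x hx _ ((Per T ⊓ Per T').neg_mem hxG)
    rwa [add_neg_cancel] at this
  · have := card_ge (by omega) hζ (Per T ⊓ Per T') hG (AddSubgroup.mem_inf.2 ⟨hv, hv'⟩) hv0 hD hDG
      hx hxG
    nlinarith

theorem card_pow_of_addSubgroup [Finite V] (p : ℕ) [hp : Fact p.Prime] (h : ∀ v : V, p • v = 0)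
    (G : AddSubgroup V) : ∃ n, Nat.card G = p ^ n := by
  let _ : Module (ZMod p) G := AddCommGroup.zmodModule (by
    intro g
    apply Subtype.ext
    simpa using h g)
  refine ⟨Module.finrank (ZMod p) G, ?_⟩
  have := Fintype.ofFinite G
  rw [Nat.card_eq_fintype_card, Module.card_eq_pow_finrank (K := ZMod p), ZMod.card]

theorem card_pow [Finite V] (p : ℕ) [hp : Fact p.Prime] (h : ∀ v : V, p • v = 0) :
    ∃ n, Nat.card V = p ^ n := by
  obtain ⟨n, hn⟩ := card_pow_of_addSubgroup p h (⊤ : AddSubgroup V)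
  exact ⟨n, by rw [← hn, Nat.card_congr AddSubgroup.topEquiv.toEquiv]⟩

/-- If a stable set has no nonzero period and is preserved by `x ↦ a x + b`, then `b = 0`. -/
theorem b_eq_zero {d : ℕ} (hd : 2 ≤ d) {ζ : K} (hζ : IsPrimitiveRoot ζ d) {T : Finset V}
    (hT : St K d T) (hper : ∀ g ∈ Per T, g = 0) {a : K} (ha : a ≠ 0) {b : V} (hi : Inv a b T) :
    b = 0 := by
  have hζ1 : ζ ≠ 1 := hζ.ne_one (by omega)
  have hζ0 : ζ ≠ 0 := hζ.ne_zero (by omega)
  have h1 : (ζ - 1) • b ∈ Per T := by
    intro y hy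
    obtain ⟨x', hx', hxy⟩ := hi.surj ha y hy
    have h2 : ζ⁻¹ • x' ∈ T := hT _ (by rw [inv_pow, hζ.pow_eq_one, inv_one]) _ hx'
    have h3 := hT ζ hζ.pow_eq_one _ (hi _ h2)
    have e : ζ • (a • ζ⁻¹ • x' + b) = y + (ζ - 1) • b := by
      rw [← hxy, smul_add, smul_comm a, smul_inv_smul₀ hζ0, sub_smul, one_smul]
      abel
    rwa [e] at h3
  have h2 := hper _ h1
  rw [smul_eq_zero] at h2
  rcases h2 with h | h
  · exact absurd (sub_eq_zero.1 h) hζ1
  · exact h

end Groups

theorem exists_prim (K : Type*) [Field K] [Finite K] (d : ℕ) (hd : d ∣ Nat.card K - 1) :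
    ∃ ζ : K, IsPrimitiveRoot ζ d := by
  have := Fintype.ofFinite K
  obtain ⟨g, hg⟩ := IsCyclic.exists_ofOrder_eq_natCard (α := Kˣ)
  rw [Nat.card_units] at hg
  obtain ⟨e, he⟩ := hd
  have hpos : 0 < Nat.card K - 1 := by
    have := Finite.one_lt_card (α := K)
    omega
  have he0 : e ≠ 0 := by
    rintro rfl
    omega
  have h1 : orderOf (g ^ e) = d := by
    rw [orderOf_pow_of_dvd he0 ⟨d, by rw [hg, he, mul_comm]⟩, hg, he]
    exact Nat.mul_div_cancel _ (Nat.pos_of_ne_zero he0)
  refine ⟨((g ^ e : Kˣ) : K), ?_⟩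
  rw [IsPrimitiveRoot.coe_units_iff, ← h1]
  exact IsPrimitiveRoot.orderOf _

end Q155.AGL
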