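import Pool.Agent.Q155.AGL.Defs
import Pool.Agent.Q155.AGL.Class

set_option autoImplicit false

namespace Q155.AGL

open Finset

section

variable {F : Type*} [Field F]

/-- The permutation `x ↦ a x + b`. -/
def affPerm (a b : F) (ha : a ≠ 0) : Equiv.Perm F where
  toFun x := a * x + b
  invFun x := a⁻¹ * (x - b)
  left_inv x := by
    change a⁻¹ * (a * x + b - b) = x
    rw [add_sub_cancel_right, inv_mul_cancel_left₀ ha]
  right_inv x := by
    change a * (a⁻¹ * (x - b)) + b = x
    rw [mul_inv_cancel_left₀ ha, sub_add_cancel]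

theorem affPerm_apply (a b : F) (ha : a ≠ 0) (x : F) : affPerm a b ha x = a * x + b := rfl

theorem mem_stab_iff [Finite F] (B : Set F) (a b : F) (ha : a ≠ 0) :
    affPerm a b ha ∈ stabilizerOf B ↔ ∀ x ∈ B, a * x + b ∈ B := by
  constructor
  · rintro ⟨-, h⟩ x hx
    have h1 : affPerm a b ha x ∈ affPerm a b ha '' B := ⟨x, hx, rfl⟩
    rw [h, affPerm_apply] at h1
    exact h1
  · intro h
    refine ⟨⟨a, b, ha, fun x => rfl⟩, ?_⟩
    apply Set.eq_of_subset_of_ncard_le
    · rintro y ⟨x, hx, rfl⟩
      exact h x hx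
    · rw [Set.ncard_image_of_injective _ (affPerm a b ha).injective]
    · exact Set.toFinite B

theorem mem_groupS_iff (d : ℕ) (H : AddSubgroup F) (a b : F) (ha : a ≠ 0) :
    affPerm a b ha ∈ groupS d H ↔ a ^ d = 1 ∧ b ∈ H := by
  constructor
  · rintro ⟨u, h, hu, hh, heq⟩
    have h0 := heq 0
    have h1 := heq 1
    rw [affPerm_apply] at h0 h1
    rw [mul_zero, mul_zero, zero_add, zero_add] at h0
    subst h0
    rw [mul_one, mul_one] at h1
    have : a = u := add_right_cancel h1
    subst this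
    exact ⟨hu, hh⟩
  · rintro ⟨h1, h2⟩
    exact ⟨a, b, h1, h2, fun x => rfl⟩

theorem stab_eq_iff [Finite F] {d : ℕ} (hd : 0 < d) (H : AddSubgroup F) (B : Set F) :
    stabilizerOf B = groupS d H ↔
      ∀ a : F, a ≠ 0 → ∀ b : F, (∀ x ∈ B, a * x + b ∈ B) ↔ (a ^ d = 1 ∧ b ∈ H) := by
  constructor
  · intro h a ha b
    rw [← mem_stab_iff B a b ha, h, mem_groupS_iff]
  · intro h
    ext σ
    constructor
    · rintro ⟨⟨a, b, ha, hσ⟩, hB⟩
      have e : σ = affPerm a b ha := Equiv.ext hσ
      rw [e, mem_groupS_iff, ← h a ha b, ← mem_stab_iff B a b ha, ← e]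
      exact ⟨⟨a, b, ha, hσ⟩, hB⟩
    · rintro ⟨u, h', hu, hh, hσ⟩
      have ha : u ≠ 0 := by
        rintro rfl
        rw [zero_pow (by omega)] at hu
        exact zero_ne_one hu
      have e : σ = affPerm u h' ha := Equiv.ext hσ
      rw [e, mem_stab_iff, h u ha h']
      exact ⟨hu, hh⟩

end

section

variable {F : Type*} [Field F] [Finite F]

/-- The field of multipliers of an additive subgroup. -/
def mulField (H : AddSubgroup F) : Subfield F where
  carrier := multipliers H
  mul_mem' := by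
    intro a b ha hb h hh
    rw [mul_assoc]
    exact ha _ (hb h hh)
  one_mem' := by intro h hh; rwa [one_mul]
  add_mem' := by
    intro a b ha hb h hh
    rw [add_mul]
    exact H.add_mem (ha h hh) (hb h hh)
  zero_mem' := by intro h _; rw [zero_mul]; exact H.zero_mem
  neg_mem' := by
    intro a ha h hh
    rw [neg_mul]
    exact H.neg_mem (ha h hh)
  inv_mem' := by
    intro a ha h hh
    by_cases ha0 : a = 0
    · rw [ha0, inv_zero, zero_mul]
      exact H.zero_mem
    · have himg : (fun x => a * x) '' (H : Set F) = H := by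
        apply Set.eq_of_subset_of_ncard_le
        · rintro y ⟨x, hx, rfl⟩
          exact ha x hx
        · rw [Set.ncard_image_of_injective _ (mul_right_injective₀ ha0)]
        · exact Set.toFinite _
      have h1 : h ∈ (fun x => a * x) '' (H : Set F) := by rw [himg]; exact hh
      obtain ⟨x, hx, rfl⟩ := h1
      simp only
      rw [inv_mul_cancel_left₀ ha0]
      exact hx

theorem mem_mulField {H : AddSubgroup F} {a : F} : a ∈ mulField H ↔ ∀ h ∈ H, a * h ∈ H := Iff.rfl

/-- `H` as a vector space over its field of multipliers. -/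
def subm (H : AddSubgroup F) : Submodule (mulField H) F where
  carrier := H
  add_mem' := H.add_mem
  zero_mem' := H.zero_mem
  smul_mem' := by
    intro c x hx
    exact c.2 x hx

theorem mem_subm {H : AddSubgroup F} {x : F} : x ∈ subm H ↔ x ∈ H := Iff.rfl

theorem good_iff {d : ℕ} (hd : 0 < d) (H : AddSubgroup F)
    (hH : ∀ u : F, u ^ d = 1 → ∀ h ∈ H, u * h ∈ H) (T : Finset (F ⧸ subm H)) :
    (∀ a : F, a ≠ 0 → ∀ b : F, (∀ x ∈ (subm H).mkQ ⁻¹' (T : Set (F ⧸ subm H)),
      a * x + b ∈ (subm H).mkQ ⁻¹' (T : Set (F ⧸ subm H))) ↔ (a ^ d = 1 ∧ b ∈ H)) ↔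
      Good (mulField H) d T := by
  have hkey : ∀ (a : mulField H) (b : F),
      (∀ x ∈ (subm H).mkQ ⁻¹' (T : Set (F ⧸ subm H)),
        (a : F) * x + b ∈ (subm H).mkQ ⁻¹' (T : Set (F ⧸ subm H))) ↔
      Inv a ((subm H).mkQ b) T := by
    intro a b
    constructor
    · intro h y hy
      obtain ⟨x, rfl⟩ := (subm H).mkQ_surjective y
      have := h x hy
      rw [Set.mem_preimage, map_add] at this
      exact this
    · intro h x hx
      rw [Set.mem_preimage, map_add]
      exact h _ hx
  have hzero : ∀ b : F, (subm H).mkQ b = 0 ↔ b ∈ H := by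
    intro b
    rw [Submodule.mkQ_apply, Submodule.Quotient.mk_eq_zero, mem_subm]
  constructor
  · intro h a ha b
    obtain ⟨b, rfl⟩ := (subm H).mkQ_surjective b
    rw [← hkey, h (a : F) (by simpa using ha) b, hzero]
    constructor
    · rintro ⟨h1, h2⟩
      exact ⟨Subtype.ext (by simpa using h1), h2⟩
    · rintro ⟨h1, h2⟩
      refine ⟨?_, h2⟩
      have := congrArg Subtype.val h1
      simpa using this
  · intro h a ha b
    constructor
    · intro hi
      have haK : a ∈ mulField H := by
        intro g hg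
        have hper : ∀ x ∈ (subm H).mkQ ⁻¹' (T : Set (F ⧸ subm H)),
            ((1 : mulField H) : F) * x + a * g ∈ (subm H).mkQ ⁻¹' (T : Set (F ⧸ subm H)) := by
          intro x hx
          have himg : (affPerm a b ha) '' ((subm H).mkQ ⁻¹' (T : Set (F ⧸ subm H))) =
              (subm H).mkQ ⁻¹' (T : Set (F ⧸ subm H)) := ((mem_stab_iff _ a b ha).2 hi).2
          rw [← himg] at hx
          obtain ⟨y, hy, rfl⟩ := hx
          have hy' : y + g ∈ (subm H).mkQ ⁻¹' (T : Set (F ⧸ subm H)) := by
            rw [Set.mem_preimage, map_add, (hzero g).2 hg, add_zero]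
            exact hy
          have := hi _ hy'
          have e : ((1 : mulField H) : F) * (affPerm a b ha y) + a * g = a * (y + g) + b := by
            rw [affPerm_apply, OneMemClass.coe_one]
            ring
          rw [e]
          exact this
        rw [hkey] at hper
        exact (hzero _).1 ((h 1 one_ne_zero _).1 hper).2
      have h1 := (hkey ⟨a, haK⟩ b).1 hi
      have h2 := (h ⟨a, haK⟩ (fun h0 => ha (congrArg Subtype.val h0)) _).1 h1
      refine ⟨?_, (hzero b).1 h2.2⟩
      have := congrArg Subtype.val h2.1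
      simpa using this
    · rintro ⟨h1, h2⟩
      have haK : a ∈ mulField H := hH a h1
      have h3 := (hkey ⟨a, haK⟩ b).2 ((h ⟨a, haK⟩ (fun h0 => ha (congrArg Subtype.val h0)) _).2
        ⟨Subtype.ext (by simpa using h1), (hzero b).2 h2⟩)
      exact h3

theorem ncard_preimage (H : AddSubgroup F) (T : Finset (F ⧸ subm H)) :
    ((subm H).mkQ ⁻¹' (T : Set (F ⧸ subm H))).ncard = T.card * Nat.card H := by
  have e := QuotientAddGroup.preimageMkEquivAddSubgroupProdSet (subm H).toAddSubgroup
    (T : Set (F ⧸ subm H))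
  have h := Nat.card_congr e
  rw [Nat.card_prod] at h
  rw [← Nat.card_coe_set_eq]
  have h2 : Nat.card (T : Set (F ⧸ subm H)) = T.card := by simp
  rw [← h2, mul_comm]
  exact h

theorem exactCount_eq_zero_iff {d : ℕ} (hd : 0 < d) (H : AddSubgroup F)
    (hH : ∀ u : F, u ^ d = 1 → ∀ h ∈ H, u * h ∈ H) (k : ℕ) :
    exactCount d H k = 0 ↔
      ¬ ∃ T : Finset (F ⧸ subm H), T.card * Nat.card H = k ∧ Good (mulField H) d T := by
  classical
  unfold exactCount
  rw [Set.ncard_eq_zero, Set.eq_empty_iff_forall_notMem, not_exists]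
  constructor
  · rintro h T ⟨hT, hg⟩
    apply h ((subm H).mkQ ⁻¹' (T : Set (F ⧸ subm H)))
    refine ⟨by rw [ncard_preimage, hT], ?_⟩
    rw [stab_eq_iff hd, good_iff hd H hH]
    exact hg
  · rintro h B ⟨hB, hs⟩
    rw [stab_eq_iff hd] at hs
    have : Finite (F ⧸ subm H) := Finite.of_surjective _ (subm H).mkQ_surjective
    have := Fintype.ofFinite (F ⧸ subm H)
    set T : Finset (F ⧸ subm H) := univ.filter (fun v => v ∈ (subm H).mkQ '' B) with hT
    have hBT : (subm H).mkQ ⁻¹' (T : Set (F ⧸ subm H)) = B := by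
      ext x
      rw [Set.mem_preimage, hT, mem_coe, mem_filter]
      constructor
      · rintro ⟨-, y, hy, hyx⟩
        have h1 : x - y ∈ H := by
          rw [← mem_subm, ← Submodule.Quotient.mk_eq_zero, ← Submodule.mkQ_apply, map_sub, hyx,
            sub_self]
        have h2 := (hs 1 one_ne_zero (x - y)).2 ⟨one_pow _, h1⟩ y hy
        rw [one_mul, add_sub_cancel] at h2
        exact h2
      · intro hx
        exact ⟨mem_univ _, x, hx, rfl⟩
    apply h T
    rw [← good_iff hd H hH, hBT, ← ncard_preimage, hBT]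
    exact ⟨hB, hs⟩

theorem classification (p : ℕ) [CharP F p] (d : ℕ) (hdF : d ∣ Nat.card F - 1) (H : AddSubgroup F)
    (hH : ∀ u : F, u ^ d = 1 → ∀ h ∈ H, u * h ∈ H) (k : ℕ) (hk : 1 ≤ k) (hkF : 2 * k ≤ Nat.card F)
    (hmod : k ≡ 0 [MOD d * Nat.card H] ∨ k ≡ Nat.card H [MOD d * Nat.card H]) :
    exactCount d H k = 0 ↔
      (k = Nat.card H ∧ d ≠ (multipliers H).ncard - 1) ∨
      (k = 2 * Nat.card H ∧ d = 1) ∨
      (k = (d + 1) * Nat.card H ∧ ∃ β, d + 1 = p ^ β) ∨
      (d = 1 ∧ Nat.card F = 7 * Nat.card H ∧ k = 3 * Nat.card H) := by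
  classical
  have hF1 : 0 < Nat.card F - 1 := by
    have := Finite.one_lt_card (α := F)
    omega
  have hd : 0 < d := Nat.pos_of_dvd_of_pos hdF hF1
  have hpp : Fact p.Prime := ⟨CharP.char_is_prime F p⟩
  have hcK : CharP (mulField H) p := (mulField H).subtype.charP Subtype.val_injective p
  have hHpos : 0 < Nat.card H := Nat.card_pos
  have hHk : Nat.card H ∣ k := by
    rcases hmod with h | h
    · have h1 := (Nat.modEq_zero_iff_dvd.1 h)
      exact (Dvd.intro_left d rfl).trans h1
    · have h1 : k ≡ Nat.card H [MOD Nat.card H] := h.of_dvd (Dvd.intro_left d rfl)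
      have h2 : Nat.card H ≡ 0 [MOD Nat.card H] := by
        rw [Nat.modEq_zero_iff_dvd]
      exact Nat.modEq_zero_iff_dvd.1 (h1.trans h2)
  obtain ⟨t, ht⟩ := hHk
  rw [mul_comm] at ht
  have ht1 : 1 ≤ t := by
    rcases Nat.eq_zero_or_pos t with rfl | h
    · omega
    · exact h
  have hmod' : d ∣ t ∨ d ∣ t - 1 := by
    rcases hmod with h | h
    · left
      have h1 := (Nat.modEq_zero_iff_dvd.1 h)
      rw [ht] at h1
      exact Nat.dvd_of_mul_dvd_mul_right hHpos h1
    · right
      have h1 : 1 * Nat.card H ≡ t * Nat.card H [MOD d * Nat.card H] := by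
        rw [one_mul, ← ht]
        exact h.symm
      have h2 : 1 ≡ t [MOD d] := Nat.ModEq.mul_right_cancel' hHpos.ne' h1
      exact (Nat.modEq_iff_dvd' ht1).1 h2
  have hVF : Nat.card F = Nat.card (F ⧸ subm H) * Nat.card H := by
    have h1 := Submodule.card_eq_card_quotient_mul_card (subm H)
    rw [mul_comm] at h1
    have e : Nat.card (subm H) = Nat.card H := rfl
    rw [← e, h1]
  have : Finite (F ⧸ subm H) := Finite.of_surjective _ (subm H).mkQ_surjective
  have := Fintype.ofFinite (F ⧸ subm H)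
  have hN : 2 * t ≤ Fintype.card (F ⧸ subm H) := by
    rw [hVF, ht, ← mul_assoc] at hkF
    rw [← Nat.card_eq_fintype_card]
    exact Nat.le_of_mul_le_mul_right hkF hHpos
  have hdK : d ∣ Nat.card (mulField H) - 1 := by
    obtain ⟨ζ, hζ⟩ := exists_prim F d hdF
    have hζK : ζ ∈ mulField H := hH ζ hζ.pow_eq_one
    have h1 : IsPrimitiveRoot (⟨ζ, hζK⟩ : mulField H) d := by
      apply IsPrimitiveRoot.of_map_of_injective (f := (mulField H).subtype) _ Subtype.val_injective
      exact hζ
    have h2 : IsPrimitiveRoot (h1.isUnit (by omega)).unit d := by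
      rw [← IsPrimitiveRoot.coe_units_iff]
      exact h1
    have := Fintype.ofFinite (mulField H)
    rw [← Nat.card_units, h2.eq_orderOf]
    exact orderOf_dvd_natCard _
  rw [exactCount_eq_zero_iff hd H hH k]
  have hcl := classify (K := mulField H) (V := F ⧸ subm H) p d t hdK ht1 hN hmod'
  have e1 : (∃ T : Finset (F ⧸ subm H), T.card * Nat.card H = k ∧ Good (mulField H) d T) ↔
      ∃ T : Finset (F ⧸ subm H), T.card = t ∧ Good (mulField H) d T := by
    constructor
    · rintro ⟨T, h1, h2⟩
      rw [ht] at h1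
      exact ⟨T, Nat.eq_of_mul_eq_mul_right hHpos h1, h2⟩
    · rintro ⟨T, h1, h2⟩
      exact ⟨T, by rw [h1, ht], h2⟩
  rw [e1, hcl]
  have c1 : t = 1 ↔ k = Nat.card H := by
    rw [ht]
    constructor
    · rintro rfl
      rw [one_mul]
    · intro h
      exact Nat.eq_of_mul_eq_mul_right hHpos (by rw [h, one_mul])
  have c2 : ∀ s : ℕ, t = s ↔ k = s * Nat.card H := by
    intro s
    rw [ht]
    constructor
    · rintro rfl
      rfl
    · intro h
      exact Nat.eq_of_mul_eq_mul_right hHpos h
  have c3 : Nat.card (mulField H) = (multipliers H).ncard := by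
    rw [← Nat.card_coe_set_eq]
    rfl
  have c4 : Fintype.card (F ⧸ subm H) = 7 ↔ Nat.card F = 7 * Nat.card H := by
    rw [hVF, ← Nat.card_eq_fintype_card]
    constructor
    · intro h
      rw [h]
    · intro h
      exact Nat.eq_of_mul_eq_mul_right hHpos h
  rw [c1, c2 2, c2 (d + 1), c2 3, c3, c4]

end

end Q155.AGL
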